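import Pool.Agent.Helper87.IA.Base

/-!
# The amalgamation lemma
-/

set_option autoImplicit false
set_option linter.unusedSectionVars false

namespace Pool.Agent.Helper87.IA

open Set

namespace Ama

section Nodes

variable {Λ : Type} [LinearOrder Λ]

/-- `x` and `y` agree up to and including `δ` -/
def Agr (x y : Nd Λ) (δ : Λ) : Prop := δ ≤ x.d ∧ δ ≤ y.d ∧ ∀ γ ≤ δ, x.f γ = y.f γ

theorem Agr.symm {x y : Nd Λ} {δ : Λ} (h : Agr x y δ) : Agr y x δ :=
  ⟨h.2.1, h.1, fun γ hγ => (h.2.2 γ hγ).symm⟩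

theorem Agr.trans {x y z : Nd Λ} {δ : Λ} (h : Agr x y δ) (h' : Agr y z δ) : Agr x z δ :=
  ⟨h.1, h'.2.1, fun γ hγ => (h.2.2 γ hγ).trans (h'.2.2 γ hγ)⟩

theorem Agr.mono {x y : Nd Λ} {δ δ' : Λ} (h : Agr x y δ) (hd : δ' ≤ δ) : Agr x y δ' :=
  ⟨hd.trans h.1, hd.trans h.2.1, fun γ hγ => h.2.2 γ (hγ.trans hd)⟩

theorem _root_.Pool.Agent.Helper87.IA.Br.symmA {w u : Nd Λ} {δ : Λ} (h : Br w u δ) : Br u w δ :=
  ⟨h.2.1, h.1, fun γ hγ => (h.2.2.1 γ hγ).symm, fun h' => h.2.2.2 h'.symm⟩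

theorem _root_.Pool.Agent.Helper87.IA.Br.uniqA {w u : Nd Λ} {δ δ' : Λ} (h : Br w u δ) (h' : Br w u δ') : δ = δ' := by
  rcases lt_trichotomy δ δ' with hlt | heq | hlt
  · exact absurd (h'.2.2.1 δ hlt) h.2.2.2
  · exact heq
  · exact absurd (h.2.2.1 δ' hlt) h'.2.2.2

theorem _root_.Pool.Agent.Helper87.IA.Br.agrA {w u v : Nd Λ} {δ : Λ} (h : Br w u δ) (h' : Br w v δ) : Agr u v δ := by
  refine ⟨h.2.1, h'.2.1, fun γ hγ => ?_⟩
  rcases hγ.lt_or_eq with hlt | rfl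
  · rw [h.2.2.1 γ hlt, h'.2.2.1 γ hlt]
  · have h1 := h.2.2.2
    have h2 := h'.2.2.2
    cases hu : u.f γ <;> cases hv : v.f γ <;> cases hw : w.f γ <;> simp_all

theorem _root_.Pool.Agent.Helper87.IA.Br.ofA {w u v : Nd Λ} {δ δ' : Λ} (h : Br w u δ) (h' : Agr u v δ') (hd : δ ≤ δ') :
    Br w v δ := by
  refine ⟨h.1, hd.trans h'.2.1, fun γ hγ => ?_, ?_⟩
  · rw [← h'.2.2 γ (hγ.le.trans hd), h.2.2.1 γ hγ]
  · rw [← h'.2.2 δ hd]
    exact h.2.2.2

theorem _root_.Pool.Agent.Helper87.IA.Br.ltA {w u : Nd Λ} {δ γ : Λ} (h : Br w u δ) (hγ : γ < δ) : Agr w u γ :=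
  ⟨hγ.le.trans h.1, hγ.le.trans h.2.1, fun ε hε => (h.2.2.1 ε (hε.trans_lt hγ)).symm⟩

theorem _root_.Pool.Agent.Helper87.IA.Br.irrA {w : Nd Λ} {δ : Λ} (h : Br w w δ) : False := h.2.2.2 rfl

theorem _root_.Pool.Agent.Helper87.IA.Ext.agrA {x y : Nd Λ} (h : Ext x y) : Agr x y x.d :=
  ⟨le_rfl, h.1, fun γ hγ => (h.2 γ hγ).symm⟩

theorem ext_of_agr {x y : Nd Λ} {δ : Λ} (h : Agr x y δ) (hd : x.d ≤ δ) : Ext x y :=
  ⟨hd.trans h.2.1, fun γ hγ => (h.2.2 γ (hγ.trans hd)).symm⟩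

theorem _root_.Pool.Agent.Helper87.IA.Ext.reflA (x : Nd Λ) : Ext x x := ⟨le_rfl, fun _ _ => rfl⟩

theorem _root_.Pool.Agent.Helper87.IA.Ext.transA {x y z : Nd Λ} (h : Ext x y) (h' : Ext y z) : Ext x z :=
  ⟨h.1.trans h'.1, fun γ hγ => (h'.2 γ (hγ.trans h.1)).trans (h.2 γ hγ)⟩

theorem nd_eq {x y : Nd Λ} (h : Ext x y) (hd : x.d = y.d) : x = y := by
  have hf : x.f = y.f := by
    funext γ
    by_cases hγ : γ ≤ x.d
    · exact (h.2 γ hγ).symm
    · rw [x.tail γ (not_le.1 hγ), y.tail γ (hd ▸ not_le.1 hγ)]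
  cases x; cases y
  simp only at hd hf
  subst hd; subst hf
  rfl

variable [WellFoundedLT Λ]

/-- comparison of `x` with the part of `y` up to `δ` -/
theorem tri (x y : Nd Λ) {δ : Λ} (hδ : δ ≤ y.d) :
    Agr x y δ ∨ (∃ e ≤ δ, Br x y e) ∨ (x.d < δ ∧ Ext x y) := by
  classical
  by_cases h : ∃ γ, γ ≤ x.d ∧ γ ≤ δ ∧ y.f γ ≠ x.f γ
  · right; left
    let S : Set Λ := {γ | γ ≤ x.d ∧ γ ≤ δ ∧ y.f γ ≠ x.f γ}
    have hS : S.Nonempty := h
    obtain ⟨h1, h2, h3⟩ := wellFounded_lt.min_mem S hS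
    refine ⟨wellFounded_lt.min S hS, h2, h1, h2.trans hδ, fun γ hγ => ?_, h3⟩
    by_contra hne
    exact wellFounded_lt.not_lt_min S (x := γ) ⟨hγ.le.trans h1, hγ.le.trans h2, hne⟩ hγ
  · push Not at h
    rcases le_or_gt δ x.d with hd | hd
    · left
      exact ⟨hd, hδ, fun γ hγ => (h γ (hγ.trans hd) hγ).symm⟩
    · right; right
      exact ⟨hd, hd.le.trans hδ, fun γ hγ => h γ hγ (hγ.trans hd.le)⟩

theorem exists_le_seq (g : ℕ → Λ) : ∃ m n, m < n ∧ g m ≤ g n := by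
  obtain ⟨m, hm⟩ : ∃ m, ∀ n, g m ≤ g n := by
    have hne : (Set.range g).Nonempty := ⟨g 0, 0, rfl⟩
    obtain ⟨m, hm⟩ := wellFounded_lt.min_mem (Set.range g) hne
    exact ⟨m, fun n => by
      rw [hm]
      exact not_lt.1 (wellFounded_lt.not_lt_min (Set.range g) ⟨n, rfl⟩)⟩
  exact ⟨m, m + 1, Nat.lt_succ_self m, hm _⟩

end Nodes

section Viol

variable {Λ : Type} [LinearOrder Λ] {ι : Type}

inductive Kd
  | k0 | k1 | k2 | k3 | k4 | k5 | k6 | k7

instance : Finite Kd := by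
  have : Function.Injective (fun k : Kd => match k with
    | .k0 => (0 : Fin 8) | .k1 => 1 | .k2 => 2 | .k3 => 3 | .k4 => 4 | .k5 => 5 | .k6 => 6 | .k7 => 7) := by
    intro a b h
    cases a <;> cases b <;> simp_all
  exact Finite.of_injective _ this

/-- the ways in which the amalgam of `m` and `n` can fail -/
def V (Rt : ι → Prop) (le : ι → ι → Prop) (x : ℕ → ι → Nd Λ) (o : ι) (m n : ℕ) :
    Kd → ι → ι → ι → Prop
  | .k0, a, b, c => Rt a ∧ le b a ∧ le a c ∧ ∃ δ, Br (x m a) (x m b) δ ∧ Br (x m a) (x n c) δ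
  | .k1, a, b, c => Rt a ∧ le b a ∧ le a c ∧ ∃ δ, Br (x m a) (x n b) δ ∧ Br (x m a) (x m c) δ
  | .k2, a, b, c => Rt a ∧ le b a ∧ le a c ∧ Ext (x m b) (x m a) ∧ Br (x m a) (x n c) (x m b).d
  | .k3, a, b, c => Rt a ∧ le b a ∧ le a c ∧ Ext (x n b) (x m a) ∧ Br (x m a) (x m c) (x n b).d
  | .k4, a, b, _ => le a o ∧ le o b ∧ Ext (x n b) (x m a) ∧ x n b ≠ x m a
  | .k5, a, b, _ => le a o ∧ le o b ∧ Br (x m a) (x n b) (x m a).d
  | .k6, a, b, c => le a o ∧ le o b ∧ le b c ∧ ∃ δ, Br (x n b) (x m a) δ ∧ Br (x n b) (x n c) δ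
  | .k7, a, b, c => le a b ∧ le b o ∧ le o c ∧ ∃ δ, Br (x m b) (x m a) δ ∧ Br (x m b) (x n c) δ

variable [WellFoundedLT Λ]

theorem good_of_no_viol {Rt : ι → Prop} {le : ι → ι → Prop} {x : ℕ → ι → Nd Λ} {o : ι} {m n : ℕ}
    (hS : Sys Rt le x) (hV : ∀ k a b c, ¬ V Rt le x o m n k a b c) : Good Rt le o x m n := by
  classical
  let y : Bool → ι → Nd Λ := fun s i => x (if s then n else m) i
  have hy : ∀ s r, Rt r → y s r = x m r := fun s r hr => hS.root r hr _ _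
  have c1 : ∀ s i j, le i j → Ext (y s j) (y s i) → i = j := fun s i j => hS.c1 _ i j
  have c2 : ∀ s i j, le i j → ¬ Br (y s i) (y s j) (y s i).d := fun s i j => hS.c2 _ i j
  have fr : ∀ s i j k δ, le i j → le j k → Br (y s j) (y s i) δ → ¬ Br (y s j) (y s k) δ :=
    fun s i j k δ => hS.fr _ i j k δ
  -- violations at root elements
  have H1 : ∀ s t k j r δ, Rt r → le k r → le r j → Br (x m r) (y s k) δ →
      ¬ Br (x m r) (y t j) δ := by
    intro s t k j r δ hr hkr hrj h1 h2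
    cases s <;> cases t
    · have e := hy false r hr
      rw [← e] at h1 h2
      exact fr false k r j δ hkr hrj h1 h2
    · exact hV .k0 r k j ⟨hr, hkr, hrj, δ, h1, h2⟩
    · exact hV .k1 r k j ⟨hr, hkr, hrj, δ, h1, h2⟩
    · have e := hy true r hr
      rw [← e] at h1 h2
      exact fr true k r j δ hkr hrj h1 h2
  have P3same : ∀ s k j r, Rt r → le k r → le r j → Ext (y s k) (x m r) →
      ¬ Br (x m r) (y s j) (y s k).d := by
    intro s k j r hr hkr hrj h1 h2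
    refine c2 s k j (hS.tr _ _ _ hkr hrj) ?_
    exact (h2.symmA.ofA h1.agrA.symm le_rfl).symmA
  have P3 : ∀ s t k j r, Rt r → le k r → le r j → Ext (y s k) (x m r) →
      ¬ Br (x m r) (y t j) (y s k).d := by
    intro s t k j r hr hkr hrj h1 h2
    cases s <;> cases t
    · exact P3same false k j r hr hkr hrj h1 h2
    · exact hV .k2 r k j ⟨hr, hkr, hrj, h1, h2⟩
    · exact hV .k3 r k j ⟨hr, hkr, hrj, h1, h2⟩
    · exact P3same true k j r hr hkr hrj h1 h2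
  have am_le : ∀ p q : Bool × ι, Am Rt le o p q → le p.2 q.2 := by
    rintro p q (⟨_, h⟩ | ⟨r, _, h1, h2⟩ | ⟨_, _, h1, h2⟩)
    · exact h
    · exact hS.tr _ _ _ h1 h2
    · exact hS.tr _ _ _ h1 h2
  refine ⟨?_, ?_, ?_⟩
  · -- (1)
    rintro ⟨s, i⟩ ⟨t, j⟩ hA hE
    change Ext (y t j) (y s i) at hE
    change y s i = y t j
    rcases hA with ⟨h1, h2⟩ | ⟨r, hr, h1, h2⟩ | ⟨h1, h2, h3, h4⟩
    · simp only at h1 h2
      subst h1
      rw [c1 s i j h2 hE]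
    · simp only at h1 h2
      by_contra hne
      have er := hy s r hr
      have er' := hy t r hr
      rcases tri (x m r) (y t j) (δ := (y t j).d) le_rfl with h | ⟨e, he, h⟩ | ⟨hd, h⟩
      · have h5 : Ext (y t j) (x m r) := ext_of_agr h.symm le_rfl
        have h6 : r = j := c1 t r j h2 (by rw [er']; exact h5)
        subst h6
        have h7 : i = r := c1 s i r h1 (by rw [er, ← er']; exact hE)
        subst h7
        exact hne (by rw [er, er'])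
      · exact H1 s t i j r e hr h1 h2 (h.ofA hE.agrA he) h
      · have h5 : i = r := c1 s i r h1 (by rw [er]; exact h.transA hE)
        subst h5
        have h6 : (y s i).d < (y s i).d := by
          calc (y s i).d = (x m i).d := by rw [er]
            _ < (y t j).d := hd
            _ ≤ (y s i).d := hE.1
        exact lt_irrefl _ h6
    · simp only at h1 h2 h3 h4
      subst h1; subst h2
      by_contra hne
      exact hV .k4 i j o ⟨h3, h4, hE, fun h => hne h.symm⟩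
  · -- (2)
    rintro ⟨s, i⟩ ⟨t, j⟩ hA hB
    change Br (y s i) (y t j) (y s i).d at hB
    rcases hA with ⟨h1, h2⟩ | ⟨r, hr, h1, h2⟩ | ⟨h1, h2, h3, h4⟩
    · simp only at h1 h2
      subst h1
      exact c2 s i j h2 hB
    · simp only at h1 h2
      have er := hy s r hr
      rcases tri (x m r) (y s i) (δ := (y s i).d) le_rfl with h | ⟨e, he, h⟩ | ⟨hd, h⟩
      · refine P3 s t i j r hr h1 h2 (ext_of_agr h.symm le_rfl) ?_
        exact (hB.symmA.ofA h.symm le_rfl).symmA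
      · rcases he.lt_or_eq with hlt | heq
        · exact H1 s t i j r e hr h1 h2 h (h.ofA (hB.ltA hlt) le_rfl)
        · refine c2 s i r h1 ?_
          rw [er, ← heq]
          exact h.symmA
      · have h5 : i = r := c1 s i r h1 (by rw [er]; exact h)
        subst h5
        rw [er] at hd
        exact lt_irrefl _ hd
    · simp only at h1 h2 h3 h4
      subst h1; subst h2
      exact hV .k5 i j o ⟨h3, h4, hB⟩
  · -- (3)
    -- the case without root elements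
    have key : ∀ p q s : Bool × ι, ∀ δ,
        ((p.1 = q.1 ∧ le p.2 q.2) ∨ (p.1 = false ∧ q.1 = true ∧ le p.2 o ∧ le o q.2)) →
        ((q.1 = s.1 ∧ le q.2 s.2) ∨ (q.1 = false ∧ s.1 = true ∧ le q.2 o ∧ le o s.2)) →
        Br (y q.1 q.2) (y p.1 p.2) δ → ¬ Br (y q.1 q.2) (y s.1 s.2) δ := by
      rintro ⟨s, i⟩ ⟨t, j⟩ ⟨u, k⟩ δ h h' hB hB'
      simp only at h h' hB hB'
      rcases h with ⟨h1, h2⟩ | ⟨h1, h2, h3, h4⟩
      · subst h1
        rcases h' with ⟨h5, h6⟩ | ⟨h5, h6, h7, h8⟩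
        · subst h5
          exact fr s i j k δ h2 h6 hB hB'
        · subst h5; subst h6
          exact hV .k7 i j k ⟨h2, h7, h8, δ, hB, hB'⟩
      · subst h1; subst h2
        rcases h' with ⟨h5, h6⟩ | ⟨h5, h6, h7, h8⟩
        · subst h5
          exact hV .k6 i j k ⟨h3, h4, h6, δ, hB, hB'⟩
        · exact absurd h5 (by simp)
    -- replace the upper element
    have key2 : ∀ p q s : Bool × ι, ∀ δ,
        ((p.1 = q.1 ∧ le p.2 q.2) ∨ (p.1 = false ∧ q.1 = true ∧ le p.2 o ∧ le o q.2)) →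
        Am Rt le o q s →
        Br (y q.1 q.2) (y p.1 p.2) δ → ¬ Br (y q.1 q.2) (y s.1 s.2) δ := by
      rintro ⟨s, i⟩ ⟨t, j⟩ ⟨u, k⟩ δ h h' hB hB'
      have hij : le i j := by
        rcases h with ⟨_, h⟩ | ⟨_, _, h3, h4⟩
        · exact h
        · exact hS.tr _ _ _ h3 h4
      rcases h' with h1 | ⟨r, hr, h1, h2⟩ | h1
      · exact key (s, i) (t, j) (u, k) δ h (Or.inl h1) hB hB'
      · simp only at h1 h2 hB hB'
        have er := hy t r hr
        rcases tri (x m r) (y u k) (δ := δ) hB'.2.1 with h5 | ⟨e, he, h5⟩ | ⟨hd, h5⟩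
        · refine key (s, i) (t, j) (t, r) δ h (Or.inl ⟨rfl, h1⟩) hB ?_
          simp only
          rw [er]
          exact hB'.ofA h5.symm le_rfl
        · refine H1 s u i k r e hr (hS.tr _ _ _ hij h1) h2 ?_ h5
          exact h5.ofA (hB'.agrA hB) he
        · have h6 : Ext (x m r) (y t j) := ext_of_agr (h5.agrA.trans (hB'.ltA hd).symm) le_rfl
          have h7 : j = r := c1 t j r h1 (by rw [er]; exact h6)
          subst h7
          rw [er] at hB'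
          exact absurd hB'.1 (not_le.2 hd)
      · exact key (s, i) (t, j) (u, k) δ h (Or.inr h1) hB hB'
    rintro ⟨s, i⟩ ⟨t, j⟩ ⟨u, k⟩ δ hA hA' hB hB'
    change Br (y t j) (y s i) δ at hB
    change Br (y t j) (y u k) δ at hB'
    have hjk : le j k := am_le _ _ hA'
    rcases hA with h1 | ⟨r, hr, h1, h2⟩ | h1
    · exact key2 (s, i) (t, j) (u, k) δ (Or.inl h1) hA' hB hB'
    · simp only at h1 h2
      have er := hy t r hr
      have er' := hy s r hr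
      rcases tri (x m r) (y s i) (δ := δ) hB.2.1 with h5 | ⟨e, he, h5⟩ | ⟨hd, h5⟩
      · refine key2 (t, r) (t, j) (u, k) δ (Or.inl ⟨rfl, h2⟩) hA' ?_ hB'
        simp only
        rw [er]
        exact hB.ofA h5.symm le_rfl
      · refine H1 s u i k r e hr h1 (hS.tr _ _ _ h2 hjk) h5 ?_
        exact h5.ofA (hB.agrA hB') he
      · have h7 : i = r := c1 s i r h1 (by rw [er']; exact h5)
        subst h7
        rw [er'] at hB
        exact absurd hB.2.1 (not_le.2 hd)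
    · exact key2 (s, i) (t, j) (u, k) δ (Or.inr h1) hA' hB hB'

end Viol

section Hom

variable {Λ : Type} [LinearOrder Λ] {ι : Type}

theorem ext_cmp {x y z : Nd Λ} (h : Ext x z) (h' : Ext y z) (hd : x.d ≤ y.d) : Ext x y :=
  ⟨hd, fun γ hγ => by rw [← h.2 γ hγ, h'.2 γ (hγ.trans hd)]⟩

theorem ext_of_agrA {x y y' : Nd Λ} (h : Ext x y) (h' : Agr y y' x.d) : Ext x y' :=
  ext_of_agr (h.agrA.trans h') le_rfl

/-- a predicate which depends on the part up to `e` only -/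
structure Loc (K : ℕ → Nd Λ → Prop) (e : ℕ → Λ) : Prop where
  a : ∀ m y y', K m y → Agr y y' (e m) → K m y'
  b : ∀ m y y', K m y → K m y' → Agr y y' (e m)

theorem loc_br (w : ℕ → Nd Λ) (δ : ℕ → Λ) : Loc (fun m y => Br (w m) y (δ m)) δ :=
  ⟨fun _ _ _ h h' => h.ofA h' le_rfl, fun _ _ _ h h' => h.agrA h'⟩

theorem loc_ext (w : ℕ → Nd Λ) : Loc (fun m y => Ext (w m) y) (fun m => (w m).d) :=
  ⟨fun _ _ _ h h' => ext_of_agrA h h', fun _ _ _ h h' => h.agrA.symm.trans h'.agrA⟩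

variable {Rt : ι → Prop} {le : ι → ι → Prop} {X : ℕ → ι → Nd Λ} {o : ι}

theorem hroot {a b c : ι} (hS : Sys Rt le X) (ha : Rt a)
    (h : ∀ m n, m < n → ∃ δ, Br (X 0 a) (X m b) δ ∧ Br (X 0 a) (X n c) δ) :
    ∃ δ, Br (X 1 a) (X 1 b) δ ∧ Br (X 1 a) (X 1 c) δ := by
  obtain ⟨δ1, h1, h2⟩ := h 0 1 (by norm_num)
  obtain ⟨δ2, h3, h4⟩ := h 0 2 (by norm_num)
  obtain ⟨δ3, h5, h6⟩ := h 1 2 (by norm_num)
  have e1 := h1.uniqA h3
  have e2 := h4.uniqA h6
  subst e1; subst e2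
  rw [hS.root a ha 1 0]
  exact ⟨δ1, h5, h2⟩

theorem lp {a b c : ι} (hS : Sys Rt le X) (ha : Rt a) (h1 : le b a) (h2 : le a c)
    (h : ∀ m n, m < n → Ext (X m b) (X 0 a) ∧ Br (X 0 a) (X n c) (X m b).d) : False := by
  obtain ⟨h3, h4⟩ := h 0 2 (by norm_num)
  obtain ⟨h5, h6⟩ := h 1 2 (by norm_num)
  have e1 : (X 0 b).d = (X 1 b).d := h4.uniqA h6
  have e2 : X 0 b = X 1 b := nd_eq (ext_cmp h3 h5 e1.le) e1
  obtain ⟨hb, -⟩ := hS.disj 0 1 b b (by norm_num) e2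
  have e3 := hS.root b hb 0 2
  rw [e3] at h3 h4
  exact hS.c2 2 b c (hS.tr _ _ _ h1 h2) (h4.symmA.ofA h3.agrA.symm le_rfl).symmA

theorem lp' {a b c : ι} (hS : Sys Rt le X) (ha : Rt a) (h1 : le b a) (h2 : le a c)
    (h : ∀ m n, m < n → Ext (X n b) (X 0 a) ∧ Br (X 0 a) (X m c) (X n b).d) : False := by
  obtain ⟨h3, h4⟩ := h 0 1 (by norm_num)
  obtain ⟨h5, h6⟩ := h 0 2 (by norm_num)
  have e1 : (X 1 b).d = (X 2 b).d := h4.uniqA h6
  have e2 : X 1 b = X 2 b := nd_eq (ext_cmp h3 h5 e1.le) e1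
  obtain ⟨hb, -⟩ := hS.disj 1 2 b b (by norm_num) e2
  have e3 := hS.root b hb 1 0
  rw [e3] at h3 h4
  exact hS.c2 0 b c (hS.tr _ _ _ h1 h2) (h4.symmA.ofA h3.agrA.symm le_rfl).symmA

variable [WellFoundedLT Λ]

theorem dec {i j : ι} {δ : ℕ → Λ} (h : ∀ m n, m < n → Br (X n i) (X m j) (δ n)) :
    ∃ n, 0 < n ∧ Br (X n i) (X n j) (δ n) := by
  obtain ⟨p, q, hpq, hle⟩ := exists_le_seq fun n => δ (n + 1)
  refine ⟨p + 1, Nat.succ_pos p, ?_⟩
  have h1 := h 0 (q + 1) (Nat.succ_pos q)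
  have h2 := h (p + 1) (q + 1) (by omega)
  exact (h 0 (p + 1) (Nat.succ_pos p)).ofA (h1.agrA h2) hle

/-- `S1` and `S2` -/
theorem follow {i j : ι} {δ : ℕ → Λ} (h : ∀ m n, m < n → Br (X m i) (X n j) (δ m))
    (hN : ∀ m, ¬ Br (X m i) (X m j) (δ m)) :
    ∀ m n, m < n → Br (X m i) (X n i) (δ m) := by
  intro m n hmn
  have h1 := h m n hmn
  have h2 := h m (n + 1) (by omega)
  have h3 := h n (n + 1) (by omega)
  have hlt : δ m < δ n := by
    by_contra hcon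
    exact hN n (h3.ofA (h2.agrA h1) (not_lt.1 hcon))
  exact h2.ofA (h3.ltA hlt).symm le_rfl

/-- `S3` -/
theorem pivot {K : ℕ → Nd Λ → Prop} {e : ℕ → Λ} {u v : ι} (hS : Sys Rt le X) (hK : Loc K e)
    (hu : le u o) (hv : le o v) (h1 : ∀ m n, m < n → K m (X n u))
    (h2 : ∀ m n, m < n → K m (X n v)) : ∀ m n, m < n → K m (X n o) := by
  intro m n hmn
  have h3 := hK.b m _ _ (h1 m n hmn) (h2 m n hmn)
  rcases tri (X n o) (X n u) (δ := e m) h3.1 with h | ⟨e', he', h⟩ | ⟨hd, h⟩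
  · exact hK.a m _ _ (h1 m n hmn) h.symm
  · exact absurd (h.ofA h3 he') (hS.fr n u o v e' hu hv h)
  · have h4 := hS.c1 n u o hu h
    subst h4
    exact absurd h3.1 (not_le.2 hd)

/-- the failure of the first direction -/
def B1 (le : ι → ι → Prop) (X : ℕ → ι → Nd Λ) (o : ι) : Prop :=
  ∃ (i j : ι) (δ : ℕ → Λ), le i o ∧ le o j ∧ (∀ m n, m < n → Br (X m i) (X n j) (δ m)) ∧
    ∀ m j', le o j' → ¬ Br (X m i) (X m j') (δ m)

/-- the failure of the second direction -/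
def B2 (le : ι → ι → Prop) (X : ℕ → ι → Nd Λ) (o : ι) : Prop :=
  ∃ (K : ℕ → Nd Λ → Prop) (e : ℕ → Λ) (u v w : ι), Loc K e ∧ le u o ∧ le o v ∧ le o w ∧
    (∀ m n, m < n → K m (X n u)) ∧ (∀ m n, m < n → K m (X n v)) ∧ (∀ m, K m (X m w)) ∧
    ∀ m k', le k' o → K m (X m k') → (X m k').d ≤ e m

theorem b1_b2 (hS : Sys Rt le X) (h1 : B1 le X o) (h2 : B2 le X o) : False := by
  obtain ⟨i, j, δ, hi, hj, hij, hN⟩ := h1
  obtain ⟨K, e, u, v, w, hK, hu, hv, hw, hKu, hKv, hKw, hN'⟩ := h2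
  have hL := loc_br (fun m => X m i) δ
  have h3 : ∀ m n, m < n → Br (X m i) (X n o) (δ m) :=
    pivot (K := fun m y => Br (X m i) y (δ m)) hS hL hi hj
      (follow hij fun m => hN m j hj) hij
  have h4 : ∀ m n, m < n → K m (X n o) := pivot hS hK hu hv hKu hKv
  have h5 := h3 0 1 (by norm_num)
  have h6 := h4 0 1 (by norm_num)
  rcases le_or_gt (δ 0) (e 0) with hle | hlt
  · exact hN 0 w hw (h5.ofA (hK.b 0 _ _ h6 (hKw 0)) hle)
  · have h7 : Agr (X 1 o) (X 0 i) (e 0) := (h5.ltA hlt).symm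
    have h8 := hN' 0 i hi (hK.a 0 _ _ h6 h7)
    exact absurd h5.1 (not_le.2 (h8.trans_lt hlt))

theorem b1_of {k : Kd} {a b c : ι} (hS : Sys Rt le X)
    (h : ∀ m n, m < n → V Rt le X o m n k a b c) : B1 le X o := by
  have h01 := h 0 1 (by norm_num)
  cases k with
  | k0 =>
    obtain ⟨ha, h1, h2, -⟩ := h01
    exfalso
    obtain ⟨δ, h3, h4⟩ := hroot (b := b) (c := c) hS ha fun m n hmn => by
      obtain ⟨-, -, -, δ, h5, h6⟩ := h m n hmn
      rw [hS.root a ha 0 m]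
      exact ⟨δ, h5, h6⟩
    exact hS.fr 1 b a c δ h1 h2 h3 h4
  | k1 =>
    obtain ⟨ha, h1, h2, -⟩ := h01
    exfalso
    obtain ⟨δ, h3, h4⟩ := hroot (b := c) (c := b) hS ha fun m n hmn => by
      obtain ⟨-, -, -, δ, h5, h6⟩ := h m n hmn
      rw [hS.root a ha 0 m]
      exact ⟨δ, h6, h5⟩
    exact hS.fr 1 b a c δ h1 h2 h4 h3
  | k2 =>
    obtain ⟨ha, h1, h2, -, -⟩ := h01
    exfalso
    refine lp hS ha h1 h2 fun m n hmn => ?_
    obtain ⟨-, -, -, h5, h6⟩ := h m n hmn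
    rw [hS.root a ha 0 m]
    exact ⟨h5, h6⟩
  | k3 =>
    obtain ⟨ha, h1, h2, -, -⟩ := h01
    exfalso
    refine lp' hS ha h1 h2 fun m n hmn => ?_
    obtain ⟨-, -, -, h5, h6⟩ := h m n hmn
    rw [hS.root a ha 0 m]
    exact ⟨h5, h6⟩
  | k4 =>
    obtain ⟨h1, h2, -, -⟩ := h01
    exfalso
    obtain ⟨p, q, hpq, hle⟩ := exists_le_seq fun n => (X (n + 1) b).d
    obtain ⟨-, -, h3, -⟩ := h 0 (p + 1) (by omega)
    obtain ⟨-, -, h4, -⟩ := h 0 (q + 1) (by omega)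
    obtain ⟨-, -, h5, h6⟩ := h (p + 1) (q + 1) (by omega)
    have h7 : Ext (X (p + 1) b) (X (q + 1) b) := ext_cmp h3 h4 hle
    have h8 : a = b := hS.c1 (p + 1) a b (hS.tr _ _ _ h1 h2) (h7.transA h5)
    subst h8
    exact h6 (nd_eq h5 (le_antisymm h5.1 h7.1))
  | k5 =>
    obtain ⟨h1, h2, -⟩ := h01
    exact ⟨a, b, fun m => (X m a).d, h1, h2, fun m n hmn => (h m n hmn).2.2,
      fun m j' hj' => hS.c2 m a j' (hS.tr _ _ _ h1 hj')⟩
  | k6 =>
    obtain ⟨h1, h2, h3, -⟩ := h01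
    exfalso
    have h4 : ∀ n, ∃ δ, 0 < n → Br (X n b) (X n c) δ := by
      intro n
      rcases Nat.eq_zero_or_pos n with hn | hn
      · exact ⟨(X 0 a).d, fun h => absurd h (by omega)⟩
      · obtain ⟨-, -, -, δ, -, h5⟩ := h 0 n hn
        exact ⟨δ, fun _ => h5⟩
    choose δ hδ using h4
    obtain ⟨n, hn, h5⟩ := dec (X := X) (i := b) (j := a) (δ := δ) fun m n hmn => by
      obtain ⟨-, -, -, δ', h6, h7⟩ := h m n hmn
      have := (hδ n (by omega)).uniqA h7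
      rw [this]
      exact h6
    exact hS.fr n a b c _ (hS.tr _ _ _ h1 h2) h3 h5 (hδ n hn)
  | k7 =>
    obtain ⟨h1, h2, h3, -⟩ := h01
    have h4 : ∀ m, ∃ δ, Br (X m b) (X m a) δ := by
      intro m
      obtain ⟨-, -, -, δ, h5, -⟩ := h m (m + 1) (by omega)
      exact ⟨δ, h5⟩
    choose δ hδ using h4
    refine ⟨b, c, δ, h2, h3, fun m n hmn => ?_, fun m j' hj' => ?_⟩
    · obtain ⟨-, -, -, δ', h6, h7⟩ := h m n hmn
      have := (hδ m).uniqA h6
      rw [this]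
      exact h7
    · exact hS.fr m a b j' _ h1 (hS.tr _ _ _ h2 hj') (hδ m)

theorem b2_of {k : Kd} {a b c : ι} (hS : Sys Rt le X)
    (h : ∀ m n, m < n → V Rt le X o n m k a b c) : B2 le X o := by
  have h01 := h 0 1 (by norm_num)
  cases k with
  | k0 =>
    obtain ⟨ha, h1, h2, -⟩ := h01
    exfalso
    obtain ⟨δ, h3, h4⟩ := hroot (b := c) (c := b) hS ha fun m n hmn => by
      obtain ⟨-, -, -, δ, h5, h6⟩ := h m n hmn
      rw [hS.root a ha 0 n]
      exact ⟨δ, h6, h5⟩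
    exact hS.fr 1 b a c δ h1 h2 h4 h3
  | k1 =>
    obtain ⟨ha, h1, h2, -⟩ := h01
    exfalso
    obtain ⟨δ, h3, h4⟩ := hroot (b := b) (c := c) hS ha fun m n hmn => by
      obtain ⟨-, -, -, δ, h5, h6⟩ := h m n hmn
      rw [hS.root a ha 0 n]
      exact ⟨δ, h5, h6⟩
    exact hS.fr 1 b a c δ h1 h2 h3 h4
  | k2 =>
    obtain ⟨ha, h1, h2, -, -⟩ := h01
    exfalso
    refine lp' hS ha h1 h2 fun m n hmn => ?_
    obtain ⟨-, -, -, h5, h6⟩ := h m n hmn
    rw [hS.root a ha 0 n]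
    exact ⟨h5, h6⟩
  | k3 =>
    obtain ⟨ha, h1, h2, -, -⟩ := h01
    exfalso
    refine lp hS ha h1 h2 fun m n hmn => ?_
    obtain ⟨-, -, -, h5, h6⟩ := h m n hmn
    rw [hS.root a ha 0 n]
    exact ⟨h5, h6⟩
  | k4 =>
    obtain ⟨h1, h2, -, -⟩ := h01
    refine ⟨fun m y => Ext (X m b) y, fun m => (X m b).d, a, b, b, loc_ext _, h1, h2, h2,
      fun m n hmn => (h m n hmn).2.2.1, fun m n hmn => ?_, fun m => Ext.reflA _,
      fun m k' hk' hE => ?_⟩
    · obtain ⟨-, -, h3, -⟩ := h m (n + 1) (by omega)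
      obtain ⟨-, -, h4, -⟩ := h n (n + 1) (by omega)
      obtain ⟨-, -, h5, h6⟩ := h m n hmn
      rcases le_or_gt (X m b).d (X n b).d with hd | hd
      · exact ext_cmp h3 h4 hd
      · have h7 : Ext (X n b) (X m b) := ext_cmp h4 h3 hd.le
        have h8 : a = b := hS.c1 n a b (hS.tr _ _ _ h1 h2) (h7.transA h5)
        subst h8
        exact absurd h5.1 (not_le.2 hd)
    · have h8 : k' = b := hS.c1 m k' b (hS.tr _ _ _ hk' h2) hE
      subst h8
      exact le_rfl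
  | k5 =>
    obtain ⟨h1, h2, -⟩ := h01
    exfalso
    obtain ⟨n, hn, h5⟩ := dec (X := X) (i := a) (j := b) (δ := fun n => (X n a).d)
      fun m n hmn => (h m n hmn).2.2
    exact hS.c2 n a b (hS.tr _ _ _ h1 h2) h5
  | k6 =>
    obtain ⟨h1, h2, h3, -⟩ := h01
    have h4 : ∀ m, ∃ δ, Br (X m b) (X m c) δ := by
      intro m
      obtain ⟨-, -, -, δ, -, h5⟩ := h m (m + 1) (by omega)
      exact ⟨δ, h5⟩
    choose δ hδ using h4
    have h5 : ∀ m n, m < n → Br (X m b) (X n a) (δ m) := by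
      intro m n hmn
      obtain ⟨-, -, -, δ', h6, h7⟩ := h m n hmn
      have := (hδ m).uniqA h7
      rw [this]
      exact h6
    have h6 : ∀ m k', le k' o → ¬ Br (X m b) (X m k') (δ m) := fun m k' hk' h' =>
      hS.fr m k' b c _ (hS.tr _ _ _ hk' h2) h3 h' (hδ m)
    exact ⟨fun m y => Br (X m b) y (δ m), δ, a, b, c, loc_br _ _, h1, h2, hS.tr _ _ _ h2 h3, h5,
      follow h5 fun m => h6 m a h1, hδ, fun m k' hk' h' => absurd h' (h6 m k' hk')⟩
  | k7 =>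
    obtain ⟨h1, h2, h3, -⟩ := h01
    exfalso
    have h4 : ∀ n, ∃ δ, 0 < n → Br (X n b) (X n a) δ := by
      intro n
      rcases Nat.eq_zero_or_pos n with hn | hn
      · exact ⟨(X 0 a).d, fun h => absurd h (by omega)⟩
      · obtain ⟨-, -, -, δ, h5, -⟩ := h 0 n hn
        exact ⟨δ, fun _ => h5⟩
    choose δ hδ using h4
    obtain ⟨n, hn, h5⟩ := dec (X := X) (i := b) (j := c) (δ := δ) fun m n hmn => by
      obtain ⟨-, -, -, δ', h6, h7⟩ := h m n hmn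
      have := (hδ n (by omega)).uniqA h6
      rw [this]
      exact h7
    exact hS.fr n a b c _ h1 (hS.tr _ _ _ h2 h3) (hδ n hn) h5

theorem sys_comp {x : ℕ → ι → Nd Λ} (hS : Sys Rt le x) {g : ℕ → ℕ} (hg : StrictMono g) :
    Sys Rt le fun m => x (g m) where
  refl := hS.refl
  tr := hS.tr
  anti := hS.anti
  inj m := hS.inj (g m)
  root i hi m n := hS.root i hi (g m) (g n)
  disj m n i j hmn h := hS.disj (g m) (g n) i j (fun h' => hmn (hg.injective h')) h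
  c1 m := hS.c1 (g m)
  c2 m := hS.c2 (g m)
  fr m := hS.fr (g m)

end Hom

end Ama

open Ama in
/-- the amalgamation lemma -/
theorem ama (hR : S_RAM) : S_AMA := by
  classical
  intro Λ _ _ ι _ Rt le x o hS _
  by_contra hcon
  push Not at hcon
  have h1 : ∀ m n, ∃ t : Kd × ι × ι × ι, m ≠ n → V Rt le x o m n t.1 t.2.1 t.2.2.1 t.2.2.2 := by
    intro m n
    by_cases hmn : m = n
    · exact ⟨(.k0, o, o, o), fun h => absurd hmn h⟩
    · by_contra hno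
      push Not at hno
      exact hcon m n hmn (good_of_no_viol hS fun k a b c => (hno (k, a, b, c)).2)
  choose D hD using h1
  obtain ⟨g, hg, ⟨t, t'⟩, ht⟩ := hR ((Kd × ι × ι × ι) × (Kd × ι × ι × ι)) fun m n => (D m n, D n m)
  have hS' := sys_comp hS hg
  refine b1_b2 (o := o) hS' (b1_of (k := t.1) (a := t.2.1) (b := t.2.2.1) (c := t.2.2.2) hS'
    fun m n hmn => ?_) (b2_of (k := t'.1) (a := t'.2.1) (b := t'.2.2.1) (c := t'.2.2.2) hS'
    fun m n hmn => ?_)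
  · have h2 := ht m n hmn
    simp only [Prod.mk.injEq] at h2
    have h3 := hD (g m) (g n) (fun h => hmn.ne (hg.injective h))
    rw [h2.1] at h3
    cases hk : t.1 <;> rw [hk] at h3 <;> exact h3
  · have h2 := ht m n hmn
    simp only [Prod.mk.injEq] at h2
    have h3 := hD (g n) (g m) (fun h => hmn.ne' (hg.injective h))
    rw [h2.2] at h3
    cases hk : t'.1 <;> rw [hk] at h3 <;> exact h3

end Pool.Agent.Helper87.IA
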