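import Pool.Agent.Helper87.IA.Base

/-!
# Project IA, module ANT (helper40)
-/

set_option autoImplicit false

namespace Pool.Agent.Helper87.IA

open Cardinal Set

theorem ant (hK : S_KEY) (hE : S_EXT) : S_ANT := by
  intro Λ _ _ _ hne p
  rw [mem_fall]
  intro A
  rw [mem_fimp]
  intro q _ hq
  refine ⟨q, le_rfl, ?_⟩
  have : Nonempty (Nd Λ) := ⟨nd (fun _ => false) hne.some⟩
  have hc : Set.Countable {t : Nd Λ | ∃ s ≤ q, s ∈ meets (A t)} := by
    by_contra hcon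
    have hu : Uncountable {t : Nd Λ | ∃ s ≤ q, s ∈ meets (A t)} := by
      rw [← not_countable_iff]
      exact fun h => hcon h
    choose s hs hs' using fun t : {t : Nd Λ | ∃ s ≤ q, s ∈ meets (A t)} => t.2
    choose f hf hf' using fun t : {t : Nd Λ | ∃ s ≤ q, s ∈ meets (A t)} => (hE Λ).1 (s t) t.1
    obtain ⟨ξ, η, hne', t, h1, h2, h3⟩ := hK Λ _ f Subtype.val hu Subtype.val_injective hf'
    have e1 := hq ξ.1 η.1 (fun h => hne' (Subtype.ext h)) t (h1.trans ((hf ξ).trans (hs ξ)))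
    exact e1 ⟨⟨meets_down (hs' ξ) (h1.trans (hf ξ)), meets_down (hs' η) (h2.trans (hf η))⟩,
      meets_of_mem h3⟩
  obtain ⟨g, hg⟩ := Set.countable_iff_exists_subset_range.1 hc
  refine mem_fex_of (fun n x => {_c | g n = x}) fun q' hq' => ⟨?_, ?_⟩
  · intro n x y hxy r _ hr'
    obtain ⟨hx, hy⟩ := hr'
    obtain ⟨_, _, _, h1, _⟩ := hx r le_rfl
    obtain ⟨_, _, _, h2, _⟩ := hy r le_rfl
    exact hxy (Eq.trans (Eq.symm h1) h2)
  · intro x
    rw [mem_fimp]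
    intro r hr hrx
    obtain ⟨n, hn⟩ := hg (show x ∈ {t : Nd Λ | ∃ s ≤ q, s ∈ meets (A t)} from
      ⟨r, hr.trans hq', hrx⟩)
    exact ⟨r, le_rfl, mem_fex_of n fun s _ => meets_of_mem hn⟩

end Pool.Agent.Helper87.IA
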