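import Mathlib

/-!
# Consistency of: a poset without uncountable antichains whose ideals contain an antichain of size `> 2 ^ ℵ₁`

Definitions and the statements of the modules.

Paper proof.  `Λ` is a well-ordered set without a last element, `Nd Λ` is the tree of the nodes
`x : {γ ≤ x.d} → 2`. A condition is a finite set `a` of nodes with a partial order which satisfies
`c1` (no node is below one of its proper initial segments), `c2` (no `y` above `x` parts from `x` at the
last place `x.d` of `x`), `fr` (a node below `w` and a node above `w` do not part from `w` at the same place).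
The generic order on `Nd Λ` is a partial order; for `r : Λ → 2` the set `J r` of the nodes which are below
some `r | {γ ≤ α}` is an ideal (add a long initial segment of `r` on top), and `r | {γ ≤ δ}` does not
belong to `J r'` if `r'` parts from `r` at `δ` (by `c2`). All antichains are countable by the
amalgamation lemma `AMA`.
-/

set_option autoImplicit false
set_option linter.unusedSectionVars false

namespace Pool.Agent.Helper87.IA

open Cardinal Set

universe u v

/-! ### Forcing -/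

section Forcing

variable {P : Type u} [Preorder P]

/-- `p` forces `not φ` iff no `q ≤ p` forces `φ`. -/
def fnot (φ : Set P) : Set P := {p | ∀ q ≤ p, q ∉ φ}

/-- `p` forces `φ and ψ` iff it forces both. -/
def fand (φ ψ : Set P) : Set P := {p | p ∈ φ ∧ p ∈ ψ}

/-- `p` forces `for all i, φ i` iff it forces every `φ i`. -/
def fall {ι : Sort v} (φ : ι → Set P) : Set P := {p | ∀ i, p ∈ φ i}

/-- `φ implies ψ` is `not (φ and not ψ)`. -/
def fimp (φ ψ : Set P) : Set P := fnot (fand φ (fnot ψ))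

/-- `there is i with φ i` is `not for all i, not φ i`. -/
def fex {ι : Sort v} (φ : ι → Set P) : Set P := fnot (fall fun i => fnot (φ i))

/-- `p` forces that the generic filter meets the set `N` of conditions:
the set of `r` lying below some member of `N` is dense below `p`. -/
def meets (N : Set P) : Set P := {p | ∀ q ≤ p, ∃ r ≤ q, ∃ s ∈ N, r ≤ s}

theorem mem_fnot {φ : Set P} {p : P} : p ∈ fnot φ ↔ ∀ q ≤ p, q ∉ φ := Iff.rfl

theorem mem_fand {φ ψ : Set P} {p : P} : p ∈ fand φ ψ ↔ p ∈ φ ∧ p ∈ ψ := Iff.rfl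

theorem mem_fall {ι : Sort v} {φ : ι → Set P} {p : P} : p ∈ fall φ ↔ ∀ i, p ∈ φ i := Iff.rfl

theorem mem_meets {N : Set P} {p : P} : p ∈ meets N ↔ ∀ q ≤ p, ∃ r ≤ q, ∃ s ∈ N, r ≤ s := Iff.rfl

theorem mem_fex {ι : Sort v} {φ : ι → Set P} {p : P} :
    p ∈ fex φ ↔ ∀ q ≤ p, ∃ r ≤ q, ∃ i, r ∈ φ i := by
  simp only [fex, fnot, fall, Set.mem_ofPred_eq, not_forall, not_not]
  constructor
  · intro h q hq
    obtain ⟨i, r, hr, h'⟩ := h q hq
    exact ⟨r, hr, i, h'⟩
  · intro h q hq
    obtain ⟨r, hr, i, h'⟩ := h q hq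
    exact ⟨i, r, hr, h'⟩

theorem mem_fimp {φ ψ : Set P} {p : P} :
    p ∈ fimp φ ψ ↔ ∀ q ≤ p, q ∈ φ → ∃ r ≤ q, r ∈ ψ := by
  simp only [fimp, fnot, fand, Set.mem_ofPred_eq, not_and, not_forall, not_not]
  constructor
  · intro h q hq h'
    obtain ⟨r, hr, h''⟩ := h q hq h'
    exact ⟨r, hr, h''⟩
  · intro h q hq h'
    obtain ⟨r, hr, h''⟩ := h q hq h'
    exact ⟨r, hr, h''⟩

theorem mem_fex_of {ι : Sort v} {φ : ι → Set P} {p : P} (i : ι) (h : ∀ q ≤ p, q ∈ φ i) :
    p ∈ fex φ :=
  mem_fex.2 fun q hq => ⟨q, le_rfl, i, h q hq⟩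

theorem meets_down {N : Set P} {p q : P} (h : p ∈ meets N) (hq : q ≤ p) : q ∈ meets N :=
  fun r hr => h r (hr.trans hq)

theorem meets_of_mem {N : Set P} {p : P} (h : p ∈ N) : p ∈ meets N :=
  fun q hq => ⟨q, le_rfl, p, h, hq⟩

theorem meets_dense {N : Set P} {p : P} (h : ∀ q ≤ p, ∃ r ≤ q, r ∈ meets N) : p ∈ meets N := by
  intro q hq
  obtain ⟨r, hr, h'⟩ := h q hq
  obtain ⟨s, hs, t, ht, hst⟩ := h' r le_rfl
  exact ⟨s, hs.trans hr, t, ht, hst⟩

/-- the countable chain condition -/
def CCC (P : Type u) [Preorder P] : Prop :=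
  ∀ (ι : Type) (f : ι → P), Uncountable ι → ∃ i j, i ≠ j ∧ ∃ s, s ≤ f i ∧ s ≤ f j

/-! ### Sentences -/

/-- The name `A` of a subset of `T` is the name of a countable set: some function from a subset
of `ω` to `T` has a range which contains it. -/
def Cble {T : Type v} (A : T → Set P) : Set P :=
  fex fun R : ℕ → T → Set P =>
    fand (fall fun n => fall fun x => fall fun y => fall fun _ : x ≠ y =>
        fnot (fand (meets (R n x)) (meets (R n y))))
      (fall fun x => fimp (meets (A x)) (fex fun n => meets (R n x)))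

variable (P) in
/-- The set `Y` is uncountable. -/
def Unctb (Y : Type v) : Set P := fnot (Cble fun _ : Y => (Set.univ : Set P))

/-- `le` is a partial order of `T`. -/
def IsPO {T : Type v} (le : T → T → Set P) : Set P :=
  fand (fall fun x => meets (le x x))
    (fand (fall fun x => fall fun y => fall fun _ : x ≠ y =>
        fnot (fand (meets (le x y)) (meets (le y x))))
      (fall fun x => fall fun y => fall fun z =>
        fimp (fand (meets (le x y)) (meets (le y z))) (meets (le x z))))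

/-- `A` is an antichain of `(T, le)`. -/
def IsAnti {T : Type v} (le : T → T → Set P) (A : T → Set P) : Set P :=
  fall fun x => fall fun y => fall fun _ : x ≠ y =>
    fnot (fand (fand (meets (A x)) (meets (A y))) (meets (le x y)))

/-- `J` is an ideal of `(T, le)`: a nonempty, initial and up-directed subset. -/
def IsIdl {T : Type v} (le : T → T → Set P) (J : T → Set P) : Set P :=
  fand (fex fun x => meets (J x))
    (fand (fall fun x => fall fun y => fimp (fand (meets (le x y)) (meets (J y))) (meets (J x)))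
      (fall fun x => fall fun y => fimp (fand (meets (J x)) (meets (J y)))
        (fex fun z => fand (meets (J z)) (fand (meets (le x z)) (meets (le y z))))))

/-- The subset `A` is included in `B`. -/
def Subs {T : Type v} (A B : T → Set P) : Set P := fall fun x => fimp (meets (A x)) (meets (B x))

variable (P) in
/-- There is no injection of `X` into the set of the subsets of `Y`: `|X| > 2 ^ |Y|`. -/
def NoInj (X Y : Type v) : Set P :=
  fnot (fex fun C : X → Y → Set P => fall fun r => fall fun r' => fall fun _ : r ≠ r' =>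
    fnot (fand (Subs (C r) (C r')) (Subs (C r') (C r))))

variable (P) in
/-- There is a partially ordered set `(T, le)` all of whose antichains are countable, a family of
pairwise incomparable ideals `J r`, `r ∈ X`, of it, and an uncountable set `Y` such that
`|X| > 2 ^ |Y|`. -/
def Model : Set P :=
  fex fun T : Type => fex fun le : T → T → Set P =>
    fand (IsPO le)
      (fand (fall fun A : T → Set P => fimp (IsAnti le A) (Cble A))
        (fex fun X : Type => fex fun J : X → T → Set P =>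
          fand (fall fun r => IsIdl le (J r))
            (fand (fall fun r => fall fun r' => fall fun _ : r ≠ r' => fnot (Subs (J r) (J r')))
              (fex fun Y : Type => fand (Unctb P Y) (NoInj P X Y)))))

end Forcing

/-! ### The tree -/

section Tree

/-- the nodes of the tree of the functions from `{γ | γ ≤ d}` to `2`, `d ∈ Λ` (continued by `false`) -/
@[ext] structure Nd (Λ : Type) [LinearOrder Λ] where
  d : Λ
  f : Λ → Bool
  tail : ∀ γ, d < γ → f γ = false

variable {Λ : Type} [LinearOrder Λ]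

/-- the restriction of the branch `r` to `{γ | γ ≤ α}` -/
def nd (r : Λ → Bool) (α : Λ) : Nd Λ :=
  ⟨α, fun γ => if γ ≤ α then r γ else false, fun γ h => by simp [not_le.2 h]⟩

/-- `y` is an extension of `x` -/
def Ext (x y : Nd Λ) : Prop := x.d ≤ y.d ∧ ∀ γ ≤ x.d, y.f γ = x.f γ

/-- `w` and `u` part at `δ` -/
def Br (w u : Nd Λ) (δ : Λ) : Prop :=
  δ ≤ w.d ∧ δ ≤ u.d ∧ (∀ γ < δ, u.f γ = w.f γ) ∧ u.f δ ≠ w.f δ

/-- the conditions -/
structure Co (Λ : Type) [LinearOrder Λ] where
  a : Finset (Nd Λ)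
  le : Nd Λ → Nd Λ → Prop
  dom : ∀ x y, le x y → x ∈ a ∧ y ∈ a
  rfl' : ∀ x ∈ a, le x x
  tr : ∀ x y z, le x y → le y z → le x z
  anti : ∀ x y, le x y → le y x → x = y
  c1 : ∀ x y, le x y → Ext y x → x = y
  c2 : ∀ x y, le x y → ¬ Br x y x.d
  fr : ∀ u w v δ, le u w → le w v → Br w u δ → ¬ Br w v δ

instance : Preorder (Co Λ) where
  le q p := p.a ⊆ q.a ∧ ∀ x ∈ p.a, ∀ y ∈ p.a, (q.le x y ↔ p.le x y)
  le_refl p := ⟨Finset.Subset.refl _, fun _ _ _ _ => Iff.rfl⟩
  le_trans r q p h h' := ⟨h'.1.trans h.1, fun x hx y hy =>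
    (h.2 x (h'.1 hx) y (h'.1 hy)).trans (h'.2 x hx y hy)⟩

theorem co_le_iff {q p : Co Λ} :
    q ≤ p ↔ p.a ⊆ q.a ∧ ∀ x ∈ p.a, ∀ y ∈ p.a, (q.le x y ↔ p.le x y) := Iff.rfl

theorem le_of_le {q p : Co Λ} (h : q ≤ p) {x y : Nd Λ} (hxy : p.le x y) : q.le x y :=
  (h.2 x (p.dom x y hxy).1 y (p.dom x y hxy).2).2 hxy

/-- the name of the generic order -/
def gle (x y : Nd Λ) : Set (Co Λ) := {p | p.le x y}

/-- the name of the ideal given by the branch `r` -/
def gJ (r : Λ → Bool) (x : Nd Λ) : Set (Co Λ) := {p | ∃ α, p.le x (nd r α)}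

end Tree

/-! ### The amalgamation -/

section Amalgamation

/-- The order of the amalgam of two copies of the order `le` of `ι`, with the root `Rt`, where in
addition the element `o` of the copy `false` is below the element `o` of the copy `true`. -/
def Am {ι : Type} (Rt : ι → Prop) (le : ι → ι → Prop) (o : ι) (p q : Bool × ι) : Prop :=
  (p.1 = q.1 ∧ le p.2 q.2) ∨ (∃ r, Rt r ∧ le p.2 r ∧ le r q.2) ∨
    (p.1 = false ∧ q.1 = true ∧ le p.2 o ∧ le o q.2)

variable {Λ : Type} [LinearOrder Λ]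

/-- The amalgam of the copies `x m` and `x n` satisfies the three conditions. -/
def Good {ι : Type} (Rt : ι → Prop) (le : ι → ι → Prop) (o : ι) (x : ℕ → ι → Nd Λ) (m n : ℕ) : Prop :=
  let y : Bool × ι → Nd Λ := fun p => x (if p.1 then n else m) p.2
  (∀ p q, Am Rt le o p q → Ext (y q) (y p) → y p = y q) ∧
  (∀ p q, Am Rt le o p q → ¬ Br (y p) (y q) (y p).d) ∧
  (∀ p q s δ, Am Rt le o p q → Am Rt le o q s → Br (y q) (y p) δ → ¬ Br (y q) (y s) δ)

/-- A sequence of isomorphic conditions, indexed by `ι`, with the root `Rt` (a Delta system). -/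
structure Sys {ι : Type} (Rt : ι → Prop) (le : ι → ι → Prop) (x : ℕ → ι → Nd Λ) : Prop where
  refl : ∀ i, le i i
  tr : ∀ i j k, le i j → le j k → le i k
  anti : ∀ i j, le i j → le j i → i = j
  inj : ∀ m i j, x m i = x m j → i = j
  root : ∀ i, Rt i → ∀ m n, x m i = x n i
  disj : ∀ m n i j, m ≠ n → x m i = x n j → Rt i ∧ i = j
  c1 : ∀ m i j, le i j → Ext (x m j) (x m i) → i = j
  c2 : ∀ m i j, le i j → ¬ Br (x m i) (x m j) (x m i).d
  fr : ∀ m i j k δ, le i j → le j k → Br (x m j) (x m i) δ → ¬ Br (x m j) (x m k) δ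

end Amalgamation

/-! ### The modules -/

/-- **RAM**: Ramsey's theorem for pairs of natural numbers and finitely many colours. -/
def S_RAM : Prop :=
  ∀ (C : Type) [Finite C] (c : ℕ → ℕ → C), ∃ g : ℕ → ℕ, StrictMono g ∧ ∃ k, ∀ i j, i < j →
    c (g i) (g j) = k

/-- **AMA**: the amalgamation lemma (helper87). -/
def S_AMA : Prop :=
  ∀ (Λ : Type) [LinearOrder Λ] [WellFoundedLT Λ] (ι : Type) [Finite ι] (Rt : ι → Prop)
    (le : ι → ι → Prop) (x : ℕ → ι → Nd Λ) (o : ι), Sys Rt le x → ¬ Rt o →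
    ∃ m n, m ≠ n ∧ Good Rt le o x m n

/-- **GLU**: the condition given by the amalgam: the nodes are `x m i`, `x n i`; `t.le u v` iff
`u = y p`, `v = y q` for some `p`, `q` with `Am Rt le o p q`, where `y p = x (if p.1 then n else m) p.2`
(copies of root elements are interchangeable). -/
def S_GLU : Prop :=
  ∀ (Λ : Type) [LinearOrder Λ] (ι : Type) [Finite ι] (Rt : ι → Prop)
    (le : ι → ι → Prop) (x : ℕ → ι → Nd Λ) (o : ι) (m n : ℕ) (p q : Co Λ), Sys Rt le x → ¬ Rt o →
    m ≠ n → Good Rt le o x m n →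
    (∀ u, u ∈ p.a ↔ ∃ i, x m i = u) → (∀ i j, p.le (x m i) (x m j) ↔ le i j) →
    (∀ u, u ∈ q.a ↔ ∃ i, x n i = u) → (∀ i j, q.le (x n i) (x n j) ↔ le i j) →
    ∃ t : Co Λ, t ≤ p ∧ t ≤ q ∧ t.le (x m o) (x n o)

/-- **DEL**: the Delta system: make the number `N` of the elements of `(p ξ).a`, the order and the
index of `z ξ` constant (uncountably many `ξ`, countably many possibilities), `ι = Fin N`; then apply RAM to
the colouring by the set of the pairs `(i, j)` with `x m i = x n j`; `Rt i` says that `x m i` does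
not depend on `m`. -/
def S_DEL : Prop :=
  ∀ (Λ : Type) [LinearOrder Λ] (Ξ : Type) (p : Ξ → Co Λ) (z : Ξ → Nd Λ), Uncountable Ξ →
    Function.Injective z → (∀ ξ, z ξ ∈ (p ξ).a) →
    ∃ (ι : Type) (_ : Finite ι) (Rt : ι → Prop) (le : ι → ι → Prop) (x : ℕ → ι → Nd Λ) (o : ι)
      (e : ℕ → Ξ), Function.Injective e ∧ Sys Rt le x ∧ ¬ Rt o ∧ (∀ m, x m o = z (e m)) ∧
      (∀ m u, u ∈ (p (e m)).a ↔ ∃ i, x m i = u) ∧
      (∀ m i j, (p (e m)).le (x m i) (x m j) ↔ le i j)

/-- **KEY**: from DEL, AMA, GLU. -/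
def S_KEY : Prop :=
  ∀ (Λ : Type) [LinearOrder Λ] [WellFoundedLT Λ] (Ξ : Type) (p : Ξ → Co Λ) (z : Ξ → Nd Λ),
    Uncountable Ξ → Function.Injective z → (∀ ξ, z ξ ∈ (p ξ).a) →
    ∃ ξ η, ξ ≠ η ∧ ∃ t : Co Λ, t ≤ p ξ ∧ t ≤ p η ∧ t.le (z ξ) (z η)

/-- **EXT**: the density arguments. (1) add an isolated node; (2) add the node `nd r γ`, `γ` larger
than all `x.d`, `x ∈ p.a`, above all elements which are below `nd r α` or below `nd r β`; (3) follows from
`c2` (the nodes `nd r δ` and `nd r' β` part at `δ`) if `δ ≤ β` and from `c1` otherwise. -/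
def S_EXT : Prop :=
  ∀ (Λ : Type) [LinearOrder Λ] [NoMaxOrder Λ] [Nonempty Λ],
    (∀ (p : Co Λ) (x : Nd Λ), ∃ q ≤ p, x ∈ q.a) ∧
    (∀ (p : Co Λ) (r : Λ → Bool) (u v : Nd Λ) (α β : Λ), p.le u (nd r α) → p.le v (nd r β) →
      ∃ q ≤ p, ∃ γ, q.le u (nd r γ) ∧ q.le v (nd r γ)) ∧
    (∀ (p : Co Λ) (r r' : Λ → Bool) (δ β : Λ), (∀ γ < δ, r γ = r' γ) → r δ ≠ r' δ →
      ¬ p.le (nd r δ) (nd r' β))

/-- **CHN**: the countable chain condition, from KEY and the first part of EXT (choose
distinct nodes `z ξ`; there are uncountably many nodes since `Λ` is uncountable; make the index set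
a subtype or reindex so that `ξ ↦ z ξ` is injective, for instance with `Ξ` of size `ℵ₁`). -/
def S_CHN : Prop :=
  ∀ (Λ : Type) [LinearOrder Λ] [WellFoundedLT Λ] [NoMaxOrder Λ] [Uncountable Λ], CCC (Co Λ)

/-- **GEN**: the sentences on the generic order and the ideals, from EXT (`WellFoundedLT` gives the least
place at which two branches part). -/
def S_GEN : Prop :=
  ∀ (Λ : Type) [LinearOrder Λ] [WellFoundedLT Λ] [NoMaxOrder Λ] [Nonempty Λ] (p : Co Λ),
    p ∈ IsPO (gle (Λ := Λ)) ∧ (∀ r : Λ → Bool, p ∈ IsIdl gle (gJ r)) ∧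
    (∀ r r' : Λ → Bool, r ≠ r' → p ∈ fnot (Subs (gJ r) (gJ r')))

/-- **ANT**: all antichains are countable, from KEY and EXT (1). If `q ≤ p` forces that `A` is an
antichain then the set `E` of the `t` such that some `s ≤ q` forces `t ∈ A` is countable by KEY (take
`p t ≤ q` with `p t ∈ meets (A t)` and `t ∈ (p t).a`); use the name of an enumeration of `E`. -/
def S_ANT : Prop :=
  ∀ (Λ : Type) [LinearOrder Λ] [WellFoundedLT Λ] [NoMaxOrder Λ] [Nonempty Λ] (p : Co Λ),
    p ∈ fall fun A : Nd Λ → Set (Co Λ) => fimp (IsAnti gle A) (Cble A)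

/-- **SIZ**: a forcing notion with the countable chain condition does not add an injection of `X`
into the subsets of `Y` if `((|P| + 2) ^ ℵ₀) ^ |Y| < |X|`: every `meets (C r y)` is `meets` of a countable
set of conditions (a maximal antichain of conditions below elements of `C r y`), that is, of the
range of a function `ℕ → Option P`. -/
def S_SIZ : Prop :=
  ∀ (P : Type) [Preorder P] (X Y : Type), CCC P → ((#P + 2) ^ ℵ₀) ^ #Y < #X →
    ∀ p : P, p ∈ NoInj P X Y

/-- **UNC**: uncountable sets stay uncountable. -/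
def S_UNC : Prop :=
  ∀ (P : Type) [Preorder P] (Y : Type), CCC P → Uncountable Y → ∀ p : P, p ∈ Unctb P Y

/-- **ARI**: the choice of `Λ = lam.ord.ToType`, where `lam` is the least cardinal with
`2 ^ ℵ₁ < 2 ^ lam`. -/
def S_ARI : Prop :=
  ∃ (Λ : Type) (_ : LinearOrder Λ), WellFoundedLT Λ ∧ NoMaxOrder Λ ∧ Uncountable Λ ∧
    ((#(Co Λ) + 2) ^ ℵ₀) ^ (ℵ₁ : Cardinal.{0}) < #(Λ → Bool)

/-- the class `D(κ)`: there is no antichain of cardinality `κ` -/
def InD (κ : Cardinal.{0}) (Q : Type) [PartialOrder Q] : Prop :=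
  ¬ ∃ A : Set Q, IsAntichain (· ≤ ·) A ∧ #A = κ

/-- **GRD**: the meaning of the sentence `Model` over the trivial forcing. -/
def S_GRD : Prop :=
  ∀ p : Unit, p ∈ Model Unit ↔ ∃ (Q : Type) (_ : PartialOrder Q), InD ℵ₁ Q ∧
    ¬ InD (Order.succ ((ℵ₁ : Cardinal.{0}) ^ (ℵ₁ : Cardinal.{0}))) (Order.Ideal Q)

end Pool.Agent.Helper87.IA
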