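import Mathlib
import Pool.Agent.Helper87.IA.Base

/-!
# Module ARI of helper87's project IA: the choice of `Λ`
-/

set_option autoImplicit false

namespace Pool.Agent.Helper87.IA

open Cardinal Set

theorem ari_nd {Λ : Type} [LinearOrder Λ] {K : Cardinal.{0}} (hK : ℵ₀ ≤ K) (h1 : #Λ ≤ K)
    (h2 : ∀ d : Λ, (2 : Cardinal.{0}) ^ #(Set.Iic d) ≤ K) : #(Nd Λ) ≤ K := by
  classical
  let F : (Σ d : Λ, (Set.Iic d → Bool)) → Nd Λ := fun s =>
    ⟨s.1, fun γ => if h : γ ≤ s.1 then s.2 ⟨γ, h⟩ else false, fun γ h => by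
      rw [dif_neg (not_le.2 h)]⟩
  have hF : Function.Surjective F := by
    intro x
    refine ⟨⟨x.d, fun γ => x.f γ⟩, ?_⟩
    apply Nd.ext
    · rfl
    · funext γ
      show (if h : γ ≤ x.d then x.f γ else false) = x.f γ
      by_cases h : γ ≤ x.d
      · rw [dif_pos h]
      · rw [dif_neg h, x.tail γ (not_le.1 h)]
  calc #(Nd Λ) ≤ #(Σ d : Λ, (Set.Iic d → Bool)) := mk_le_of_surjective hF
    _ = Cardinal.sum fun d : Λ => #(Set.Iic d → Bool) := mk_sigma _
    _ ≤ Cardinal.sum fun _ : Λ => K := by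
        refine Cardinal.sum_le_sum _ _ fun d => ?_
        have : #(Set.Iic d → Bool) = (2 : Cardinal.{0}) ^ #(Set.Iic d) := by
          rw [← Cardinal.mk_bool, Cardinal.power_def]
        rw [this]
        exact h2 d
    _ = #Λ * K := by rw [Cardinal.sum_const']
    _ ≤ K * K := mul_le_mul_left h1 K
    _ = K := mul_eq_self hK

theorem ari_co {Λ : Type} [LinearOrder Λ] {K : Cardinal.{0}} (hK : ℵ₀ ≤ K) (h : #(Nd Λ) ≤ K) :
    #(Co Λ) ≤ K := by
  classical
  have hfin : ∀ (T : Type), #T ≤ K → #(Finset T) ≤ K := by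
    intro T hT
    by_cases hinf : Infinite T
    · rw [mk_finset_of_infinite]
      exact hT
    · have : Finite T := not_infinite_iff_finite.1 hinf
      exact (lt_aleph0_of_finite (Finset T)).le.trans hK
  let F : Co Λ → Finset (Nd Λ) × Finset (Nd Λ × Nd Λ) := fun p =>
    (p.a, (p.a ×ˢ p.a).filter fun e => p.le e.1 e.2)
  have hF : Function.Injective F := by
    intro p q hpq
    have h1 : p.a = q.a := congrArg Prod.fst hpq
    have h2 : (p.a ×ˢ p.a).filter (fun e => p.le e.1 e.2) =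
        (q.a ×ˢ q.a).filter (fun e => q.le e.1 e.2) := congrArg Prod.snd hpq
    have h3 : p.le = q.le := by
      funext x y
      apply propext
      constructor
      · intro hxy
        have h4 : (x, y) ∈ (p.a ×ˢ p.a).filter (fun e => p.le e.1 e.2) :=
          Finset.mem_filter.2 ⟨Finset.mem_product.2 (p.dom x y hxy), hxy⟩
        rw [h2] at h4
        exact (Finset.mem_filter.1 h4).2
      · intro hxy
        have h4 : (x, y) ∈ (q.a ×ˢ q.a).filter (fun e => q.le e.1 e.2) :=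
          Finset.mem_filter.2 ⟨Finset.mem_product.2 (q.dom x y hxy), hxy⟩
        rw [← h2] at h4
        exact (Finset.mem_filter.1 h4).2
    cases p
    cases q
    cases h1
    cases h3
    rfl
  calc #(Co Λ) ≤ #(Finset (Nd Λ) × Finset (Nd Λ × Nd Λ)) := mk_le_of_injective hF
    _ = #(Finset (Nd Λ)) * #(Finset (Nd Λ × Nd Λ)) := by rw [mk_prod, lift_id, lift_id]
    _ ≤ K * K := by
        refine mul_le_mul' (hfin _ h) (hfin _ ?_)
        rw [mk_prod, lift_id]
        exact (mul_le_mul' h h).trans (mul_eq_self hK).le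
    _ = K := mul_eq_self hK

theorem ari : S_ARI := by
  obtain ⟨K, hKdef⟩ : ∃ K : Cardinal.{0}, K = 2 ^ (ℵ₁ : Cardinal.{0}) := ⟨_, rfl⟩
  have hK1 : (ℵ₁ : Cardinal.{0}) ≤ K := by rw [hKdef]; exact (cantor _).le
  have hK0 : ℵ₀ ≤ K := (aleph0_le_aleph 1).trans hK1
  have hex : {l : Cardinal.{0} | K < 2 ^ l}.Nonempty := ⟨K, cantor K⟩
  obtain ⟨lam, hlamdef⟩ : ∃ l : Cardinal.{0}, l = sInf {l : Cardinal.{0} | K < 2 ^ l} := ⟨_, rfl⟩
  have hlam : K < 2 ^ lam := by
    have := csInf_mem hex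
    rw [← hlamdef] at this
    exact this
  have hmin : ∀ μ < lam, (2 : Cardinal.{0}) ^ μ ≤ K := by
    intro μ hμ
    by_contra h
    rw [not_le] at h
    have : lam ≤ μ := by
      rw [hlamdef]
      exact csInf_le' h
    exact absurd hμ (not_lt.2 this)
  have hlamK : lam ≤ K := by
    rw [hlamdef]
    exact csInf_le' (cantor K)
  have hlam1 : (ℵ₁ : Cardinal.{0}) < lam := by
    by_contra h
    rw [not_lt] at h
    have : (2 : Cardinal.{0}) ^ lam ≤ K := by
      rw [hKdef]
      exact power_le_power_left two_ne_zero h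
    exact absurd hlam (not_lt.2 this)
  have hlam0 : ℵ₀ < lam := (aleph0_le_aleph 1).trans_lt hlam1
  have hcard : #(lam.ord.ToType) = lam := mk_ord_toType lam
  refine ⟨lam.ord.ToType, inferInstance, inferInstance, noMaxOrder hlam0.le, ?_, ?_⟩
  · rw [← aleph0_lt_mk_iff, hcard]
    exact hlam0
  · have hnd : #(Nd lam.ord.ToType) ≤ K := by
      refine ari_nd hK0 (by rw [hcard]; exact hlamK) fun d => hmin _ ?_
      have h1 := mk_Iic_lt d (by simp) (by rw [hcard]; exact hlam0.le)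
      rwa [hcard] at h1
    have hco : #(Co lam.ord.ToType) ≤ K := ari_co hK0 hnd
    have h2 : #(Co lam.ord.ToType) + 2 ≤ K := by
      refine (add_le_add hco (show (2 : Cardinal.{0}) ≤ K from ?_)).trans (add_eq_self hK0).le
      exact (natCast_lt_aleph0 (n := 2)).le.trans hK0
    calc ((#(Co lam.ord.ToType) + 2) ^ ℵ₀) ^ (ℵ₁ : Cardinal.{0}) ≤ (K ^ ℵ₀) ^ (ℵ₁ : Cardinal.{0}) :=
          power_le_power_right (power_le_power_right h2)
      _ = 2 ^ ((ℵ₁ : Cardinal.{0}) * (ℵ₀ * ℵ₁)) := by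
          rw [hKdef, ← power_mul, ← power_mul]
      _ = 2 ^ (ℵ₁ : Cardinal.{0}) := by
          congr 1
          rw [aleph0_mul_eq (aleph0_le_aleph 1), mul_eq_self (aleph0_le_aleph 1)]
      _ = K := hKdef.symm
      _ < 2 ^ lam := hlam
      _ = #(lam.ord.ToType → Bool) := by
          rw [← Cardinal.mk_bool, ← hcard, Cardinal.power_def, hcard]

end Pool.Agent.Helper87.IA
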