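import Pool.Agent.Helper87.IA.Base

/-!
# Project IA, module CHN (helper40)
-/

set_option autoImplicit false

namespace Pool.Agent.Helper87.IA

open Cardinal Set

theorem chn (hK : S_KEY) (hE : S_EXT) : S_CHN := by
  intro Λ _ _ _ hΛ ι f hι
  have hne : Nonempty Λ := by
    by_contra h
    rw [not_nonempty_iff] at h
    exact hΛ.not_countable inferInstance
  have h1 : (ℵ₁ : Cardinal.{0}) ≤ #ι := by
    rw [← succ_aleph0]
    exact Order.succ_le_of_lt (aleph0_lt_mk_iff.2 hι)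
  have h2 : (ℵ₁ : Cardinal.{0}) ≤ #Λ := by
    rw [← succ_aleph0]
    exact Order.succ_le_of_lt (aleph0_lt_mk_iff.2 hΛ)
  obtain ⟨Ξ, hΞ⟩ : ∃ Ξ : Type, #Ξ = (ℵ₁ : Cardinal.{0}) := ⟨_, mk_out _⟩
  rw [← hΞ] at h1 h2
  obtain ⟨a⟩ := h1
  obtain ⟨b⟩ := h2
  have hu : Uncountable Ξ := by
    rw [← aleph0_lt_mk_iff, hΞ]
    exact aleph0_lt_aleph_one
  choose p hp hp' using fun ξ : Ξ => (hE Λ).1 (f (a ξ)) (nd (fun _ => false) (b ξ))
  obtain ⟨ξ, η, hne', t, e1, e2, _⟩ := hK Λ Ξ p (fun ξ => nd (fun _ => false) (b ξ)) hu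
    (fun x y hxy => b.injective (congrArg Nd.d hxy)) hp'
  exact ⟨a ξ, a η, fun h => hne' (a.injective h), t, e1.trans (hp ξ), e2.trans (hp η)⟩

end Pool.Agent.Helper87.IA
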