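import Pool.Agent.Helper87.IA.Base

/-!
# DEL: the Delta system
-/

set_option autoImplicit false

namespace Pool.Agent.Helper87.IA

open Set

theorem del (h : S_RAM) : S_DEL := by
  intro Λ _ Ξ p z hunc hz hmem
  -- the types of the conditions
  let T : Type := Σ N : ℕ, (Fin N → Fin N → Prop) × Fin N
  have hT : Countable T := inferInstance
  have h1 : ∀ ξ, ∃ t : T, ∃ x : Fin t.1 → Nd Λ, Function.Injective x ∧
      (∀ u, u ∈ (p ξ).a ↔ ∃ i, x i = u) ∧ (∀ i j, (p ξ).le (x i) (x j) ↔ t.2.1 i j) ∧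
      x t.2.2 = z ξ := by
    intro ξ
    let E := (p ξ).a.equivFin
    refine ⟨⟨(p ξ).a.card, fun i j => (p ξ).le (E.symm i) (E.symm j), E ⟨z ξ, hmem ξ⟩⟩,
      fun i => (E.symm i : Nd Λ), fun i j hij => E.symm.injective (Subtype.ext hij), ?_,
      fun i j => Iff.rfl, by simp⟩
    intro u
    constructor
    · intro hu
      exact ⟨E ⟨u, hu⟩, by simp⟩
    · rintro ⟨i, rfl⟩
      exact (E.symm i).2
  choose ty x₀ hx1 hx2 hx3 hx4 using h1
  -- an infinite fibre
  obtain ⟨t, ht⟩ : ∃ t : T, (ty ⁻¹' {t}).Infinite := by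
    by_contra hcon
    push Not at hcon
    have h2 : (Set.univ : Set Ξ).Countable := by
      have : (Set.univ : Set Ξ) = ⋃ t : T, ty ⁻¹' {t} := by
        ext ξ
        simp
      rw [this]
      exact Set.countable_iUnion fun t => (hcon t).countable
    exact not_countable (α := Ξ) (Set.countable_univ_iff.1 h2)
  let e₀ : ℕ → Ξ := fun m => (ht.natEmbedding _ m : Ξ)
  have he₀ : Function.Injective e₀ := fun a b hab =>
    (ht.natEmbedding _).injective (Subtype.ext hab)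
  have hte : ∀ m, ty (e₀ m) = t := fun m => (ht.natEmbedding _ m).2
  have h3 : ∀ m, ∃ x : Fin t.1 → Nd Λ, Function.Injective x ∧
      (∀ u, u ∈ (p (e₀ m)).a ↔ ∃ i, x i = u) ∧ (∀ i j, (p (e₀ m)).le (x i) (x j) ↔ t.2.1 i j) ∧
      x t.2.2 = z (e₀ m) := by
    intro m
    rw [← hte m]
    exact ⟨x₀ (e₀ m), hx1 _, hx2 _, hx3 _, hx4 _⟩
  choose X hX1 hX2 hX3 hX4 using h3
  -- Ramsey
  obtain ⟨g, hg, k, hk⟩ := h (Fin t.1 → Fin t.1 → Prop) (fun m n i j => X m i = X n j)
  have hk' : ∀ m n, m < n → ∀ i j, X (g m) i = X (g n) j ↔ k i j := fun m n hmn i j => by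
    rw [← hk m n hmn]
  have hkk : ∀ i j, k i j → i = j := by
    intro i j hij
    have a1 := (hk' 0 1 (by omega) i j).2 hij
    have a2 := (hk' 0 2 (by omega) i j).2 hij
    have a3 := (hk' 1 2 (by omega) i j).2 hij
    apply hX1 (g 1)
    rw [a3, ← a2, a1]
  refine ⟨Fin t.1, inferInstance, fun i => k i i, t.2.1, fun m => X (g m), t.2.2,
    fun m => e₀ (g m), he₀.comp hg.injective, ?_, ?_, fun m => hX4 (g m), fun m => hX2 (g m),
    fun m => hX3 (g m)⟩
  · refine ⟨?_, ?_, ?_, ?_, ?_, ?_, ?_, ?_, ?_⟩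
    · intro i
      exact (hX3 0 i i).1 ((p (e₀ 0)).rfl' _ ((hX2 0 _).2 ⟨i, rfl⟩))
    · intro i j l hij hjl
      exact (hX3 0 i l).1 ((p (e₀ 0)).tr _ _ _ ((hX3 0 i j).2 hij) ((hX3 0 j l).2 hjl))
    · intro i j hij hji
      exact hX1 0 ((p (e₀ 0)).anti _ _ ((hX3 0 i j).2 hij) ((hX3 0 j i).2 hji))
    · intro m i j hij
      exact hX1 (g m) hij
    · intro i hi m n
      rcases lt_trichotomy m n with hmn | hmn | hmn
      · exact (hk' m n hmn i i).2 hi
      · rw [hmn]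
      · exact ((hk' n m hmn i i).2 hi).symm
    · intro m n i j hmn hij
      rcases lt_or_gt_of_ne hmn with h4 | h4
      · have h5 := (hk' m n h4 i j).1 hij
        have h6 := hkk i j h5
        subst h6
        exact ⟨h5, rfl⟩
      · have h5 := (hk' n m h4 j i).1 hij.symm
        have h6 := hkk j i h5
        subst h6
        exact ⟨h5, rfl⟩
    · intro m i j hij he
      exact hX1 (g m) ((p (e₀ (g m))).c1 _ _ ((hX3 (g m) i j).2 hij) he)
    · intro m i j hij
      exact (p (e₀ (g m))).c2 _ _ ((hX3 (g m) i j).2 hij)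
    · intro m i j l δ hij hjl
      exact (p (e₀ (g m))).fr _ _ _ δ ((hX3 (g m) i j).2 hij) ((hX3 (g m) j l).2 hjl)
  · intro ho
    have h4 := (hk' 0 1 (by omega) t.2.2 t.2.2).2 ho
    rw [hX4, hX4] at h4
    have h5 := hg.injective (he₀ (hz h4))
    omega

end Pool.Agent.Helper87.IA
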