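import Pool.Agent.Helper87.IA.Base

/-!
# EXT: the density arguments (helper23)
-/

set_option autoImplicit false

namespace Pool.Agent.Helper87.IA

namespace EXT

variable {Λ : Type} [LinearOrder Λ]

theorem nd_f_le (r : Λ → Bool) {α γ : Λ} (h : γ ≤ α) : (nd r α).f γ = r γ := by
  simp [nd, h]

theorem not_br_self (w : Nd Λ) (δ : Λ) : ¬ Br w w δ := fun h => h.2.2.2 rfl

/-- an element below `nd r α` which agrees with `r` as long as possible -/
theorem agree {p : Co Λ} {w : Nd Λ} {r : Λ → Bool} {α δ : Λ} (h : p.le w (nd r α))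
    (hδ : δ ≤ w.d) (hb : ∀ γ < δ, w.f γ = r γ) : δ ≤ α := by
  by_contra hc
  have hc := not_le.1 hc
  have h1 : Ext (nd r α) w := ⟨hc.le.trans hδ, fun γ hγ => by
    have hγ' : γ ≤ α := hγ
    rw [hb γ (lt_of_le_of_lt hγ' hc), nd_f_le r hγ']⟩
  have h2 := p.c1 _ _ h h1
  have h3 : w.d = α := by rw [h2]; rfl
  rw [h3] at hδ
  exact absurd hδ (not_le.2 hc)

theorem br_nd {w : Nd Λ} {r : Λ → Bool} {α δ γ₀ : Λ} (hα : δ ≤ α)
    (h : Br w (nd r γ₀) δ) : Br w (nd r α) δ := by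
  obtain ⟨h1, h2, h3, h4⟩ := h
  have h2' : δ ≤ γ₀ := h2
  refine ⟨h1, hα, fun γ hγ => ?_, ?_⟩
  · rw [nd_f_le r (hγ.le.trans hα), ← h3 γ hγ, nd_f_le r (hγ.le.trans h2')]
  · rw [nd_f_le r hα]
    rwa [nd_f_le r h2'] at h4

theorem br_agree {w : Nd Λ} {r : Λ → Bool} {δ γ₀ : Λ} (h : Br w (nd r γ₀) δ) :
    ∀ γ < δ, w.f γ = r γ := by
  obtain ⟨_, h2, h3, _⟩ := h
  have h2' : δ ≤ γ₀ := h2
  intro γ hγ
  rw [← h3 γ hγ, nd_f_le r (hγ.le.trans h2')]

end EXT

open EXT in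
/-- **EXT** -/
theorem ext : S_EXT := by
  classical
  intro Λ _ _ _
  refine ⟨?_, ?_, ?_⟩
  · intro p x
    by_cases hx : x ∈ p.a
    · exact ⟨p, le_rfl, hx⟩
    have h1 : ∀ {s : Nd Λ}, ¬ p.le s x := fun h => hx (p.dom _ _ h).2
    have h2 : ∀ {s : Nd Λ}, ¬ p.le x s := fun h => hx (p.dom _ _ h).1
    refine ⟨{
      a := insert x p.a
      le := fun s t => p.le s t ∨ (s = x ∧ t = x)
      dom := ?_
      rfl' := ?_
      tr := ?_
      anti := ?_
      c1 := ?_
      c2 := ?_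
      fr := ?_ }, ⟨Finset.subset_insert _ _, ?_⟩, Finset.mem_insert_self _ _⟩
    · rintro s t (h | ⟨rfl, rfl⟩)
      · exact ⟨Finset.mem_insert_of_mem (p.dom _ _ h).1, Finset.mem_insert_of_mem (p.dom _ _ h).2⟩
      · exact ⟨Finset.mem_insert_self _ _, Finset.mem_insert_self _ _⟩
    · intro s hs
      rcases Finset.mem_insert.1 hs with rfl | hs
      · exact Or.inr ⟨rfl, rfl⟩
      · exact Or.inl (p.rfl' _ hs)
    · rintro s t w (h | ⟨rfl, rfl⟩) (h' | ⟨h3, h4⟩)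
      · exact Or.inl (p.tr _ _ _ h h')
      · subst h3
        exact absurd h h1
      · exact absurd h' h2
      · exact Or.inr ⟨rfl, h4⟩
    · rintro s t (h | ⟨rfl, rfl⟩) (h' | ⟨h3, h4⟩)
      · exact p.anti _ _ h h'
      · subst h3
        exact absurd h h1
      · rfl
      · rfl
    · rintro s t (h | ⟨rfl, rfl⟩) h'
      · exact p.c1 _ _ h h'
      · rfl
    · rintro s t (h | ⟨rfl, rfl⟩)
      · exact p.c2 _ _ h
      · exact not_br_self _ _
    · rintro u w v δ (h | ⟨rfl, rfl⟩) (h' | ⟨h3, h4⟩) hb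
      · exact p.fr _ _ _ _ h h' hb
      · subst h3
        exact absurd h h1
      · exact absurd h' h2
      · exact absurd hb (not_br_self _ _)
    · intro s hs t ht
      show p.le s t ∨ (s = x ∧ t = x) ↔ p.le s t
      constructor
      · rintro (h | ⟨rfl, rfl⟩)
        · exact h
        · exact absurd hs hx
      · exact Or.inl
  · intro p r u v α β hu hv
    obtain ⟨M, hM⟩ : ∃ M : Λ, ∀ s ∈ p.a, s.d ≤ M := by
      obtain ⟨M, hM⟩ := (p.a.image Nd.d).exists_le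
      exact ⟨M, fun s hs => hM _ (Finset.mem_image_of_mem _ hs)⟩
    obtain ⟨g, hg⟩ := exists_gt M
    have hlt : ∀ s ∈ p.a, s.d < g := fun s hs => lt_of_le_of_lt (hM s hs) hg
    set z : Nd Λ := nd r g with hz
    have hzd : z.d = g := rfl
    have hza : z ∉ p.a := fun h => absurd (hlt z h) (by rw [hzd]; exact lt_irrefl _)
    have h1 : ∀ {s : Nd Λ}, ¬ p.le s z := fun h => hza (p.dom _ _ h).2
    have h2 : ∀ {s : Nd Λ}, ¬ p.le z s := fun h => hza (p.dom _ _ h).1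
    -- the elements below `z`
    set B : Nd Λ → Prop := fun s => ∃ a, (a = α ∨ a = β) ∧ p.le s (nd r a) with hB
    have hBa : ∀ {s}, B s → s ∈ p.a := by
      rintro s ⟨a, _, h⟩
      exact (p.dom _ _ h).1
    have hBz : ¬ B z := fun h => hza (hBa h)
    refine ⟨{
      a := insert z p.a
      le := fun s t => p.le s t ∨ (t = z ∧ (s = z ∨ B s))
      dom := ?_
      rfl' := ?_
      tr := ?_
      anti := ?_
      c1 := ?_
      c2 := ?_
      fr := ?_ }, ⟨Finset.subset_insert _ _, ?_⟩, g, ?_, ?_⟩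
    · rintro s t (h | ⟨rfl, rfl | h⟩)
      · exact ⟨Finset.mem_insert_of_mem (p.dom _ _ h).1, Finset.mem_insert_of_mem (p.dom _ _ h).2⟩
      · exact ⟨Finset.mem_insert_self _ _, Finset.mem_insert_self _ _⟩
      · exact ⟨Finset.mem_insert_of_mem (hBa h), Finset.mem_insert_self _ _⟩
    · intro s hs
      rcases Finset.mem_insert.1 hs with rfl | hs
      · exact Or.inr ⟨rfl, Or.inl rfl⟩
      · exact Or.inl (p.rfl' _ hs)
    · rintro s t w (h | ⟨rfl, h⟩) (h' | ⟨rfl, h'⟩)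
      · exact Or.inl (p.tr _ _ _ h h')
      · rcases h' with rfl | ⟨a, ha, h'⟩
        · exact absurd h h1
        · exact Or.inr ⟨rfl, Or.inr ⟨a, ha, p.tr _ _ _ h h'⟩⟩
      · exact absurd h' h2
      · exact Or.inr ⟨rfl, h⟩
    · rintro s t (h | ⟨rfl, h⟩) (h' | ⟨h3, h'⟩)
      · exact p.anti _ _ h h'
      · subst h3
        exact absurd h h2
      · exact absurd h' h2
      · exact h3
    · rintro s t (h | ⟨rfl, rfl | h⟩) h'
      · exact p.c1 _ _ h h'
      · rfl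
      · exact absurd h'.1 (not_le.2 (hlt s (hBa h)))
    · rintro s t (h | ⟨rfl, rfl | ⟨a, _, h⟩⟩)
      · exact p.c2 _ _ h
      · exact not_br_self _ _
      · intro hb
        exact p.c2 _ _ h (br_nd (agree h le_rfl (br_agree hb)) hb)
    · rintro s w t δ (h | ⟨rfl, h⟩) (h' | ⟨rfl, h'⟩) hb
      · exact p.fr _ _ _ _ h h' hb
      · rcases h' with rfl | ⟨a, _, h'⟩
        · exact absurd h h1
        · intro hb'
          exact p.fr _ _ _ _ h h' hb (br_nd (agree h' hb'.1 (br_agree hb')) hb')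
      · exact absurd h' h2
      · exact not_br_self _ _
    · intro s hs t ht
      show p.le s t ∨ (t = z ∧ (s = z ∨ B s)) ↔ p.le s t
      constructor
      · rintro (h | ⟨rfl, _⟩)
        · exact h
        · exact absurd ht hza
      · exact Or.inl
    · exact Or.inr ⟨rfl, Or.inr ⟨α, Or.inl rfl, hu⟩⟩
    · exact Or.inr ⟨rfl, Or.inr ⟨β, Or.inr rfl, hv⟩⟩
  · intro p r r' δ β hlt hne h
    have h1 : δ ≤ β := agree (w := nd r δ) (δ := δ) h le_rfl (fun γ hγ => by
      rw [nd_f_le r hγ.le, hlt γ hγ])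
    refine p.c2 _ _ h ⟨le_rfl, h1, fun γ hγ => ?_, ?_⟩
    · have hγ' : γ < δ := hγ
      rw [nd_f_le r' (hγ'.le.trans h1), nd_f_le r hγ'.le, hlt γ hγ']
    · show (nd r' β).f δ ≠ (nd r δ).f δ
      rw [nd_f_le r' h1, nd_f_le r le_rfl]
      exact hne.symm

end Pool.Agent.Helper87.IA
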