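import Pool.Agent.Helper87.IA.Base

/-!
# GEN: the sentences on the generic order and the ideals (helper98)
-/

set_option autoImplicit false

namespace Pool.Agent.Helper87.IA

open Cardinal Set

section

variable {Λ : Type} [LinearOrder Λ]

theorem gen_down_le {x y : Nd Λ} {p : Co Λ} (h : p ∈ meets (gle x y)) {q : Co Λ} (hq : q ≤ p) :
    ∃ r ≤ q, r.le x y := by
  obtain ⟨r, hr, s, hs, hrs⟩ := h q hq
  exact ⟨r, hr, le_of_le hrs hs⟩

theorem gen_down_J {b : Λ → Bool} {x : Nd Λ} {p : Co Λ} (h : p ∈ meets (gJ b x)) {q : Co Λ}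
    (hq : q ≤ p) : ∃ r ≤ q, ∃ α, r.le x (nd b α) := by
  obtain ⟨r, hr, s, ⟨α, hs⟩, hrs⟩ := h q hq
  exact ⟨r, hr, α, le_of_le hrs hs⟩

theorem gen (hE : S_EXT) : S_GEN := by
  intro Λ _ _ _ _ p
  obtain ⟨e1, e2, e3⟩ := hE Λ
  refine ⟨⟨?_, ?_, ?_⟩, fun b => ⟨?_, ?_, ?_⟩, fun b b' hb => ?_⟩
  · intro x q hq
    obtain ⟨q', hq', hx⟩ := e1 q x
    exact ⟨q', hq', q', q'.rfl' x hx, le_rfl⟩
  · rw [mem_fall]; intro x
    rw [mem_fall]; intro y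
    rw [mem_fall]; intro hxy
    rintro q hq ⟨h1, h2⟩
    obtain ⟨r1, hr1, h1'⟩ := gen_down_le h1 le_rfl
    obtain ⟨r2, hr2, h2'⟩ := gen_down_le h2 hr1
    exact hxy (r2.anti x y (le_of_le hr2 h1') h2')
  · rw [mem_fall]; intro x
    rw [mem_fall]; intro y
    rw [mem_fall]; intro z
    rw [mem_fimp]
    rintro q hq ⟨h1, h2⟩
    obtain ⟨r1, hr1, h1'⟩ := gen_down_le h1 le_rfl
    obtain ⟨r2, hr2, h2'⟩ := gen_down_le h2 hr1
    exact ⟨r2, hr2.trans hr1, meets_of_mem (r2.tr x y z (le_of_le hr2 h1') h2')⟩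
  · rw [mem_fex]
    intro q hq
    obtain ⟨α⟩ : Nonempty Λ := inferInstance
    obtain ⟨q', hq', hx⟩ := e1 q (nd b α)
    exact ⟨q', hq', nd b α, meets_of_mem ⟨α, q'.rfl' _ hx⟩⟩
  · rw [mem_fall]; intro x
    rw [mem_fall]; intro y
    rw [mem_fimp]
    rintro q hq ⟨h1, h2⟩
    obtain ⟨r1, hr1, h1'⟩ := gen_down_le h1 le_rfl
    obtain ⟨r2, hr2, α, h2'⟩ := gen_down_J h2 hr1
    exact ⟨r2, hr2.trans hr1, meets_of_mem ⟨α, r2.tr x y _ (le_of_le hr2 h1') h2'⟩⟩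
  · rw [mem_fall]; intro x
    rw [mem_fall]; intro y
    rw [mem_fimp]
    rintro q hq ⟨h1, h2⟩
    obtain ⟨r1, hr1, α, h1'⟩ := gen_down_J h1 le_rfl
    obtain ⟨r2, hr2, β, h2'⟩ := gen_down_J h2 hr1
    obtain ⟨r3, hr3, γ, h3, h4⟩ := e2 r2 b x y α β (le_of_le hr2 h1') h2'
    refine ⟨r3, (hr3.trans hr2).trans hr1, mem_fex_of (nd b γ) fun t ht => ⟨?_, ?_, ?_⟩⟩
    · exact meets_of_mem ⟨γ, t.rfl' _ (t.dom _ _ (le_of_le ht h3)).2⟩
    · exact meets_of_mem (le_of_le ht h3)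
    · exact meets_of_mem (le_of_le ht h4)
  · intro q hq h
    have hne : {γ : Λ | b γ ≠ b' γ}.Nonempty := by
      by_contra hcon
      rw [Set.not_nonempty_iff_eq_empty] at hcon
      apply hb
      funext γ
      by_contra hγ
      have : γ ∈ {γ : Λ | b γ ≠ b' γ} := hγ
      rw [hcon] at this
      exact this.elim
    have hwf : WellFounded ((· < ·) : Λ → Λ → Prop) := wellFounded_lt
    let δ := hwf.min {γ : Λ | b γ ≠ b' γ} hne
    have hδ : b δ ≠ b' δ := hwf.min_mem _ hne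
    have hlt : ∀ γ < δ, b γ = b' γ := by
      intro γ hγ
      by_contra hcon
      exact hwf.not_lt_min {γ : Λ | b γ ≠ b' γ} (x := γ) hcon hγ
    have hx := (mem_fall.1 h) (nd b δ)
    rw [mem_fimp] at hx
    obtain ⟨q', hq', hx'⟩ := e1 q (nd b δ)
    obtain ⟨t, ht, ht'⟩ := hx q' hq' (meets_of_mem ⟨δ, q'.rfl' _ hx'⟩)
    obtain ⟨u, _, β, hu⟩ := gen_down_J ht' le_rfl
    exact e3 u b b' δ β hlt hδ hu

end

end Pool.Agent.Helper87.IA
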