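import Pool.Agent.Helper87.IA.Base

/-!
# GLU: the condition given by the amalgam (helper23)
-/

set_option autoImplicit false

namespace Pool.Agent.Helper87.IA

namespace GLU

variable {Λ : Type} [LinearOrder Λ] {ι : Type} {Rt : ι → Prop} {le : ι → ι → Prop}
  {x : ℕ → ι → Nd Λ} {o : ι}

/-- the nodes -/
def y (x : ℕ → ι → Nd Λ) (m n : ℕ) (p : Bool × ι) : Nd Λ := x (if p.1 then n else m) p.2

theorem am_refl (h : Sys Rt le x) (P : Bool × ι) : Am Rt le o P P := Or.inl ⟨rfl, h.refl _⟩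

theorem am_trans (h : Sys Rt le x) {P Q S : Bool × ι} (h1 : Am Rt le o P Q)
    (h2 : Am Rt le o Q S) : Am Rt le o P S := by
  rcases h1 with ⟨a1, a2⟩ | ⟨r, hr, a1, a2⟩ | ⟨a1, a2, a3, a4⟩
  · rcases h2 with ⟨b1, b2⟩ | ⟨s, hs, b1, b2⟩ | ⟨b1, b2, b3, b4⟩
    · exact Or.inl ⟨a1.trans b1, h.tr _ _ _ a2 b2⟩
    · exact Or.inr (Or.inl ⟨s, hs, h.tr _ _ _ a2 b1, b2⟩)
    · exact Or.inr (Or.inr ⟨a1.trans b1, b2, h.tr _ _ _ a2 b3, b4⟩)
  · rcases h2 with ⟨b1, b2⟩ | ⟨s, hs, b1, b2⟩ | ⟨b1, b2, b3, b4⟩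
    · exact Or.inr (Or.inl ⟨r, hr, a1, h.tr _ _ _ a2 b2⟩)
    · exact Or.inr (Or.inl ⟨r, hr, a1, h.tr _ _ _ (h.tr _ _ _ a2 b1) b2⟩)
    · exact Or.inr (Or.inl ⟨r, hr, a1, h.tr _ _ _ (h.tr _ _ _ a2 b3) b4⟩)
  · rcases h2 with ⟨b1, b2⟩ | ⟨s, hs, b1, b2⟩ | ⟨b1, b2, b3, b4⟩
    · exact Or.inr (Or.inr ⟨a1, b1.symm.trans a2, a3, h.tr _ _ _ a4 b2⟩)
    · exact Or.inr (Or.inl ⟨s, hs, h.tr _ _ _ (h.tr _ _ _ a3 a4) b1, b2⟩)
    · rw [a2] at b1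
      exact absurd b1 (by simp)

theorem am_eqv (h : Sys Rt le x) {m n : ℕ} (hmn : m ≠ n) {P Q : Bool × ι}
    (hPQ : y x m n P = y x m n Q) : Am Rt le o P Q := by
  obtain ⟨b, i⟩ := P
  obtain ⟨c, j⟩ := Q
  cases b <;> cases c
  · have : i = j := h.inj m i j hPQ
    subst this
    exact am_refl h _
  · obtain ⟨hr, hij⟩ := h.disj m n i j hmn hPQ
    subst hij
    exact Or.inr (Or.inl ⟨i, hr, h.refl _, h.refl _⟩)
  · obtain ⟨hr, hij⟩ := h.disj n m i j hmn.symm hPQ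
    subst hij
    exact Or.inr (Or.inl ⟨i, hr, h.refl _, h.refl _⟩)
  · have : i = j := h.inj n i j hPQ
    subst this
    exact am_refl h _

theorem am_anti (h : Sys Rt le x) (ho : ¬ Rt o) {m n : ℕ} {P Q : Bool × ι}
    (h1 : Am Rt le o P Q) (h2 : Am Rt le o Q P) : y x m n P = y x m n Q := by
  have he : P.1 = Q.1 → P.2 = Q.2 → y x m n P = y x m n Q := by
    intro e1 e2
    have : P = Q := Prod.ext e1 e2
    rw [this]
  rcases h1 with ⟨a1, a2⟩ | ⟨r, hr, a1, a2⟩ | ⟨a1, a2, a3, a4⟩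
  · rcases h2 with ⟨b1, b2⟩ | ⟨s, hs, b1, b2⟩ | ⟨b1, b2, b3, b4⟩
    · exact he a1 (h.anti _ _ a2 b2)
    · exact he a1 (h.anti _ _ a2 (h.tr _ _ _ b1 b2))
    · rw [b1, b2] at a1
      exact absurd a1 (by simp)
  · rcases h2 with ⟨b1, b2⟩ | ⟨s, hs, b1, b2⟩ | ⟨b1, b2, b3, b4⟩
    · exact he b1.symm (h.anti _ _ (h.tr _ _ _ a1 a2) b2)
    · have e1 : P.2 = r := h.anti _ _ a1 (h.tr _ _ _ a2 (h.tr _ _ _ b1 b2))
      have e2 : P.2 = Q.2 := h.anti _ _ (h.tr _ _ _ a1 a2) (h.tr _ _ _ b1 b2)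
      have h3 : Rt P.2 := by rw [e1]; exact hr
      show x _ P.2 = x _ Q.2
      rw [← e2]
      exact h.root _ h3 _ _
    · have e1 : r = o := by
        refine h.anti _ _ (h.tr _ _ _ a2 b3) (h.tr _ _ _ b4 a1)
      exact absurd (e1 ▸ hr) ho
  · rcases h2 with ⟨b1, b2⟩ | ⟨s, hs, b1, b2⟩ | ⟨b1, b2, b3, b4⟩
    · rw [a1, a2] at b1
      exact absurd b1 (by simp)
    · have e1 : s = o := by
        refine h.anti _ _ (h.tr _ _ _ b2 a3) (h.tr _ _ _ a4 b1)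
      exact absurd (e1 ▸ hs) ho
    · rw [a1] at b2
      exact absurd b2 (by simp)

end GLU

open GLU in
/-- **GLU** -/
theorem glu : S_GLU := by
  classical
  intro Λ _ ι _ Rt le x o m n p q h ho hmn hg hp hple hq hqle
  obtain ⟨g1, g2, g3⟩ := hg
  have hyf : ∀ i, y x m n (false, i) = x m i := fun i => rfl
  have hyt : ∀ i, y x m n (true, i) = x n i := fun i => rfl
  -- change of representatives
  have rep : ∀ {P Q P' Q' : Bool × ι}, Am Rt le o P Q → y x m n P = y x m n P' →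
      y x m n Q = y x m n Q' → Am Rt le o P' Q' := by
    intro P Q P' Q' h1 h2 h3
    exact am_trans h (am_trans h (am_eqv h hmn h2.symm) h1) (am_eqv h hmn h3)
  refine ⟨{
    a := p.a ∪ q.a
    le := fun u v => ∃ P Q : Bool × ι, Am Rt le o P Q ∧ y x m n P = u ∧ y x m n Q = v
    dom := ?_
    rfl' := ?_
    tr := ?_
    anti := ?_
    c1 := ?_
    c2 := ?_
    fr := ?_ }, ?_, ?_, ?_⟩
  · have key : ∀ P : Bool × ι, y x m n P ∈ p.a ∪ q.a := by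
      rintro ⟨b, i⟩
      rw [Finset.mem_union]
      cases b
      · exact Or.inl ((hp _).2 ⟨i, rfl⟩)
      · exact Or.inr ((hq _).2 ⟨i, rfl⟩)
    rintro u v ⟨P, Q, _, rfl, rfl⟩
    exact ⟨key P, key Q⟩
  · intro u hu
    rcases Finset.mem_union.1 hu with hu | hu
    · obtain ⟨i, rfl⟩ := (hp _).1 hu
      exact ⟨(false, i), (false, i), am_refl h _, rfl, rfl⟩
    · obtain ⟨i, rfl⟩ := (hq _).1 hu
      exact ⟨(true, i), (true, i), am_refl h _, rfl, rfl⟩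
  · rintro u v w ⟨P, Q, h1, rfl, rfl⟩ ⟨Q', S, h2, h3, rfl⟩
    exact ⟨P, S, am_trans h (rep h1 rfl h3.symm) h2, rfl, rfl⟩
  · rintro u v ⟨P, Q, h1, rfl, rfl⟩ ⟨Q', P', h2, h3, h4⟩
    exact am_anti h ho h1 (rep h2 h3 h4)
  · rintro u v ⟨P, Q, h1, rfl, rfl⟩ h2
    exact g1 P Q h1 h2
  · rintro u v ⟨P, Q, h1, rfl, rfl⟩
    exact g2 P Q h1
  · rintro u w v δ ⟨P, Q, h1, rfl, rfl⟩ ⟨Q', S, h2, h3, rfl⟩ h4
    exact g3 P Q S δ h1 (rep h2 h3 rfl) h4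
  · refine ⟨Finset.subset_union_left, ?_⟩
    intro u hu v hv
    obtain ⟨i, rfl⟩ := (hp _).1 hu
    obtain ⟨j, rfl⟩ := (hp _).1 hv
    rw [hple]
    constructor
    · rintro ⟨P, Q, h1, h2, h3⟩
      have h4 : Am Rt le o (false, i) (false, j) := rep h1 h2 h3
      rcases h4 with ⟨_, a2⟩ | ⟨r, _, a1, a2⟩ | ⟨_, a2, _, _⟩
      · exact a2
      · exact h.tr _ _ _ a1 a2
      · exact absurd a2 (by simp)
    · intro h1
      exact ⟨(false, i), (false, j), Or.inl ⟨rfl, h1⟩, rfl, rfl⟩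
  · refine ⟨Finset.subset_union_right, ?_⟩
    intro u hu v hv
    obtain ⟨i, rfl⟩ := (hq _).1 hu
    obtain ⟨j, rfl⟩ := (hq _).1 hv
    rw [hqle]
    constructor
    · rintro ⟨P, Q, h1, h2, h3⟩
      have h4 : Am Rt le o (true, i) (true, j) := rep h1 h2 h3
      rcases h4 with ⟨_, a2⟩ | ⟨r, _, a1, a2⟩ | ⟨a1, _, _, _⟩
      · exact a2
      · exact h.tr _ _ _ a1 a2
      · exact absurd a1 (by simp)
    · intro h1
      exact ⟨(true, i), (true, j), Or.inl ⟨rfl, h1⟩, rfl, rfl⟩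
  · exact ⟨(false, o), (true, o), Or.inr (Or.inr ⟨rfl, rfl, h.refl _, h.refl _⟩), rfl, rfl⟩

end Pool.Agent.Helper87.IA
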