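import Mathlib
import Pool.Agent.Helper87.IA.Base

/-!
# Module GRD of helper87's project IA: the sentence `Model` over the trivial forcing
-/

set_option autoImplicit false

namespace Pool.Agent.Helper87.IA

open Cardinal Set

universe v

section Unit

theorem grd_fnot {φ : Set Unit} {p : Unit} : p ∈ fnot φ ↔ p ∉ φ := by
  rw [mem_fnot]
  exact ⟨fun h => h p le_rfl, fun h q _ => h⟩

theorem grd_fimp {φ ψ : Set Unit} {p : Unit} : p ∈ fimp φ ψ ↔ (p ∈ φ → p ∈ ψ) := by
  rw [mem_fimp]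
  constructor
  · intro h h1
    obtain ⟨r, -, hr⟩ := h p le_rfl h1
    exact hr
  · intro h q _ h1
    exact ⟨q, le_rfl, h h1⟩

theorem grd_fex {ι : Sort v} {φ : ι → Set Unit} {p : Unit} : p ∈ fex φ ↔ ∃ i, p ∈ φ i := by
  rw [mem_fex]
  constructor
  · intro h
    obtain ⟨r, -, i, hr⟩ := h p le_rfl
    exact ⟨i, hr⟩
  · rintro ⟨i, h⟩ q _
    exact ⟨q, le_rfl, i, h⟩

theorem grd_meets {N : Set Unit} {p : Unit} : p ∈ meets N ↔ p ∈ N := by
  rw [mem_meets]
  constructor
  · intro h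
    obtain ⟨r, -, s, hs, -⟩ := h p le_rfl
    exact hs
  · intro h q _
    exact ⟨q, le_rfl, p, h, le_rfl⟩

theorem grd_cble {T : Type v} {A : T → Set Unit} {p : Unit} :
    p ∈ Cble A ↔ {x | p ∈ A x}.Countable := by
  unfold Cble
  simp only [grd_fex, mem_fand, mem_fall, grd_fnot, grd_fimp, grd_meets]
  constructor
  · rintro ⟨R, h1, h2⟩
    classical
    have h3 : ∀ x : {x | p ∈ A x}, ∃ n, p ∈ R n x.1 := fun x => h2 x.1 x.2
    choose g hg using h3
    have hginj : Function.Injective g := by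
      intro x y hxy
      by_contra hne
      have hne' : x.1 ≠ y.1 := fun h => hne (Subtype.ext h)
      refine h1 (g x) x.1 y.1 hne' ⟨hg x, ?_⟩
      rw [hxy]
      exact hg y
    exact Set.countable_coe_iff.1 hginj.countable
  · intro h
    have hc : Countable {x | p ∈ A x} := h.to_subtype
    obtain ⟨g, hg⟩ := hc.exists_injective_nat
    refine ⟨fun n x => {_u | ∃ hx : p ∈ A x, g ⟨x, hx⟩ = n}, ?_, ?_⟩
    · rintro n x y hxy ⟨⟨hx, hxn⟩, ⟨hy, hyn⟩⟩
      have := hg (hxn.trans hyn.symm)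
      exact hxy (congrArg Subtype.val this)
    · intro x hx
      exact ⟨g ⟨x, hx⟩, hx, rfl⟩

theorem grd_unctb {Y : Type v} {p : Unit} : p ∈ Unctb Unit Y ↔ Uncountable Y := by
  unfold Unctb
  rw [grd_fnot, grd_cble]
  have h : {x : Y | p ∈ (Set.univ : Set Unit)} = Set.univ := by
    ext x
    simp
  rw [h, Set.countable_univ_iff, ← not_countable_iff]

theorem grd_noinj {X Y : Type v} {p : Unit} : p ∈ NoInj Unit X Y ↔ 2 ^ #Y < #X := by
  unfold NoInj
  rw [grd_fnot]
  simp only [grd_fex, mem_fand, mem_fall, grd_fnot, grd_fimp, grd_meets, Subs]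
  rw [← not_le, not_iff_not, ← Cardinal.mk_set, Cardinal.le_def]
  constructor
  · rintro ⟨C, hC⟩
    refine ⟨⟨fun r => {y | p ∈ C r y}, ?_⟩⟩
    intro r r' h
    by_contra hne
    refine hC r r' hne ⟨fun y hy => ?_, fun y hy => ?_⟩
    · have : y ∈ {y | p ∈ C r y} := hy
      have h' : ({y | p ∈ C r y} : Set Y) = {y | p ∈ C r' y} := h
      rw [h'] at this
      exact this
    · have : y ∈ {y | p ∈ C r' y} := hy
      have h' : ({y | p ∈ C r y} : Set Y) = {y | p ∈ C r' y} := h
      rw [← h'] at this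
      exact this
  · rintro ⟨e⟩
    refine ⟨fun r y => {_u | y ∈ e r}, ?_⟩
    rintro r r' hne ⟨h1, h2⟩
    refine hne (e.injective ?_)
    ext y
    exact ⟨fun hy => h1 y hy, fun hy => h2 y hy⟩

end Unit

theorem grd_pow : (ℵ₁ : Cardinal.{0}) ^ (ℵ₁ : Cardinal.{0}) = 2 ^ (ℵ₁ : Cardinal.{0}) :=
  power_self_eq (aleph0_le_aleph 1)

theorem grd : S_GRD := by
  intro p
  unfold Model
  simp only [grd_fex, mem_fand, mem_fall, grd_fnot, grd_fimp, grd_meets, IsPO, IsAnti, IsIdl,
    grd_cble, grd_unctb, grd_noinj, Subs]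
  constructor
  · rintro ⟨T, le, ⟨hr, ha, ht⟩, hA, X, J, hI, hJ, Y, hY, hX⟩
    let PT : PartialOrder T :=
      { le := fun x y => p ∈ le x y
        le_refl := hr
        le_trans := fun x y z h1 h2 => ht x y z ⟨h1, h2⟩
        le_antisymm := fun x y h1 h2 => by
          by_contra hne
          exact ha x y hne ⟨h1, h2⟩ }
    refine ⟨T, PT, ?_, ?_⟩
    · rintro ⟨A, hA1, hA2⟩
      have h1 := hA (fun x => {_u | x ∈ A}) (fun x y hne h => hA1 h.1.1 h.1.2 hne h.2)
      have h2 : A.Countable := h1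
      have h3 : #A ≤ ℵ₀ := Cardinal.le_aleph0_iff_set_countable.2 h2
      rw [hA2] at h3
      exact absurd h3 (not_le.2 aleph0_lt_aleph_one)
    · rw [InD, not_not]
      -- the ideals
      let I : X → Order.Ideal T := fun r =>
        { carrier := {x | p ∈ J r x}
          lower' := fun x y hyx hx => (hI r).2.1 y x ⟨hyx, hx⟩
          nonempty' := (hI r).1
          directed' := fun x hx y hy => by
            obtain ⟨z, hz, h1, h2⟩ := (hI r).2.2 x y ⟨hx, hy⟩
            exact ⟨z, hz, h1, h2⟩ }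
      have hsub : ∀ r r', r ≠ r' → ¬ I r ≤ I r' := by
        intro r r' hne h
        exact hJ r r' hne fun x hx => h hx
      have hinj : Function.Injective I := by
        intro r r' h
        by_contra hne
        exact hsub r r' hne h.le
      have hcard : Order.succ ((ℵ₁ : Cardinal.{0}) ^ (ℵ₁ : Cardinal.{0})) ≤ #X := by
        rw [Order.succ_le_iff, grd_pow]
        refine lt_of_le_of_lt ?_ hX
        refine power_le_power_left two_ne_zero ?_
        have h4 : ℵ₀ < #Y := aleph0_lt_mk_iff.2 hY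
        rw [← succ_aleph0]
        exact Order.succ_le_of_lt h4
      have hcard2 : Order.succ ((ℵ₁ : Cardinal.{0}) ^ (ℵ₁ : Cardinal.{0})) ≤ #(Set.range I) := by
        rw [Cardinal.mk_range_eq I hinj]
        exact hcard
      obtain ⟨B, hB1, hB2⟩ := Cardinal.le_mk_iff_exists_subset.1 hcard2
      refine ⟨B, ?_, hB2⟩
      intro a haB b hbB hne h
      obtain ⟨r, rfl⟩ := hB1 haB
      obtain ⟨r', rfl⟩ := hB1 hbB
      exact hsub r r' (fun h => hne (congrArg I h)) h
  · rintro ⟨Q, hQ, hD, hID⟩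
    rw [InD, not_not] at hID
    obtain ⟨B, hB1, hB2⟩ := hID
    refine ⟨Q, fun x y => {_u | x ≤ y}, ⟨fun x => le_refl x, fun x y hne h => hne (le_antisymm h.1 h.2),
      fun x y z h => le_trans h.1 h.2⟩, ?_, B, fun r x => {_u | x ∈ r.1}, ?_, ?_,
      (ℵ₁ : Cardinal.{0}).out, ?_, ?_⟩
    · intro A hA
      by_contra hcon
      have h1 : ℵ₀ < #({x | p ∈ A x} : Set Q) := by
        rw [← not_le, Cardinal.le_aleph0_iff_set_countable]
        exact hcon
      have h2 : (ℵ₁ : Cardinal.{0}) ≤ #({x | p ∈ A x} : Set Q) := by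
        rw [← succ_aleph0]
        exact Order.succ_le_of_lt h1
      obtain ⟨A', hA1, hA2⟩ := Cardinal.le_mk_iff_exists_subset.1 h2
      refine hD ⟨A', ?_, hA2⟩
      intro a ha b hb hne h
      exact hA a b hne ⟨⟨hA1 ha, hA1 hb⟩, h⟩
    · intro r
      refine ⟨r.1.nonempty', fun x y h => r.1.lower' h.1 h.2, fun x y h => ?_⟩
      obtain ⟨z, hz, h1, h2⟩ := r.1.directed' x h.1 y h.2
      exact ⟨z, hz, h1, h2⟩
    · intro r r' hne h
      exact hB1 r.2 r'.2 (fun h' => hne (Subtype.ext h')) (fun x hx => h x hx)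
    · rw [← aleph0_lt_mk_iff, mk_out]
      exact aleph0_lt_aleph_one
    · rw [mk_out, hB2, ← grd_pow]
      exact Order.lt_succ _

end Pool.Agent.Helper87.IA
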