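import Pool.Agent.Helper87.IA.Base

/-!
# KEY: compatible conditions which put one of the chosen nodes below the other
-/

set_option autoImplicit false

namespace Pool.Agent.Helper87.IA

theorem key (hD : S_DEL) (hA : S_AMA) (hG : S_GLU) : S_KEY := by
  intro Λ _ _ Ξ p z hunc hz hmem
  obtain ⟨ι, hι, Rt, le, x, o, e, he, hS, hRt, hzx, hu, hl⟩ := hD Λ Ξ p z hunc hz hmem
  obtain ⟨m, n, hmn, hgood⟩ := hA Λ ι Rt le x o hS hRt
  obtain ⟨t, ht1, ht2, ht3⟩ := hG Λ ι Rt le x o m n (p (e m)) (p (e n)) hS hRt hmn hgood (hu m)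
    (hl m) (hu n) (hl n)
  refine ⟨e m, e n, he.ne hmn, t, ht1, ht2, ?_⟩
  rw [← hzx m, ← hzx n]
  exact ht3

end Pool.Agent.Helper87.IA
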