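import Pool.Agent.Helper87.IA.Base

/-!
# RAM: Ramsey's theorem for pairs and finitely many colours
-/

set_option autoImplicit false

namespace Pool.Agent.Helper87.IA

open Filter

theorem ram : S_RAM := by
  intro C _ c
  have h1 : ∀ f : ℕ → C, ∃ k, {j | f j = k} ∈ hyperfilter ℕ := by
    intro f
    obtain ⟨k, hk⟩ := Ultrafilter.eq_pure_of_finite ((hyperfilter ℕ).map f)
    refine ⟨k, ?_⟩
    have h2 : ({k} : Set C) ∈ (hyperfilter ℕ).map f := by
      rw [hk, Ultrafilter.mem_pure]
      exact Set.mem_singleton k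
    exact Ultrafilter.mem_map.1 h2
  choose κ hκ using fun i => h1 (c i)
  obtain ⟨k, hk⟩ := h1 κ
  obtain ⟨g, hg1, hg2⟩ := exists_seq_of_forall_finset_exists (fun i => κ i = k)
    (fun i j => i < j ∧ c i j = k) (by
      intro s hs
      have h3 : ({j | κ j = k} ∩ ⋂ i ∈ s, ({j | c i j = k} ∩ {j | i < j})) ∈ hyperfilter ℕ := by
        refine inter_mem hk ((biInter_finset_mem s).2 fun i hi => inter_mem ?_ ?_)
        · have := hκ i
          rwa [hs i hi] at this
        · have h4 : {j | i < j} ∈ (atTop : Filter ℕ) := Ioi_mem_atTop i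
          have h5 : ((hyperfilter ℕ : Ultrafilter ℕ) : Filter ℕ) ≤ atTop := by
            rw [← Nat.cofinite_eq_atTop]
            exact hyperfilter_le_cofinite
          exact h5 h4
      obtain ⟨y, hy⟩ := (hyperfilter ℕ).nonempty_of_mem h3
      refine ⟨y, hy.1, fun i hi => ?_⟩
      have := Set.mem_iInter₂.1 hy.2 i hi
      exact ⟨this.2, this.1⟩)
  exact ⟨g, strictMono_nat_of_lt_succ fun n => (hg2 n (n + 1) (Nat.lt_succ_self n)).1, k,
    fun i j hij => (hg2 i j hij).2⟩

end Pool.Agent.Helper87.IA
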