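import Pool.Agent.Helper87.IA.Base

/-!
# Counting nice names (helper71)
-/

set_option autoImplicit false

namespace Pool.Agent.Helper87.IA

open Cardinal Set

/-- nice names of truth values -/
theorem siz_nice {P : Type} [Preorder P] (hC : CCC P) (N : Set P) :
    ∃ g : ℕ → Option P, meets {c | ∃ n, g n = some c} = meets N := by
  classical
  set D : Set P := {d | ∃ c ∈ N, d ≤ c} with hD
  set S : Set (Set P) := {A | A ⊆ D ∧ A.Pairwise fun a b => ¬ ∃ s, s ≤ a ∧ s ≤ b} with hS
  obtain ⟨A, hA⟩ := zorn_subset S (by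
    intro c hc hch
    refine ⟨⋃₀ c, ⟨Set.sUnion_subset fun s hs => (hc hs).1, ?_⟩, fun s hs => Set.subset_sUnion_of_mem hs⟩
    intro a ha b hb hab
    obtain ⟨s, hs, has⟩ := ha
    obtain ⟨s', hs', hbs⟩ := hb
    rcases hch.total hs hs' with h | h
    · exact (hc hs').2 (h has) hbs hab
    · exact (hc hs).2 has (h hbs) hab)
  have hAD : A ⊆ D := hA.prop.1
  have hAp : A.Pairwise fun a b => ¬ ∃ s, s ≤ a ∧ s ≤ b := hA.prop.2
  have hAc : A.Countable := by
    by_contra hcon
    have hunc : Uncountable A := by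
      rw [← not_countable_iff]
      intro h
      exact hcon (Set.countable_coe_iff.1 h)
    obtain ⟨i, j, hij, s, hsi, hsj⟩ := hC A (fun a => (a : P)) hunc
    exact hAp i.2 j.2 (fun h => hij (Subtype.ext h)) ⟨s, hsi, hsj⟩
  have hmax : ∀ d ∈ D, ∃ a ∈ A, ∃ t, t ≤ d ∧ t ≤ a := by
    intro d hd
    by_contra hcon
    push Not at hcon
    have h1 : insert d A ∈ S := by
      refine ⟨Set.insert_subset hd hAD, ?_⟩
      intro a ha b hb hab
      rcases ha with rfl | ha
      · rcases hb with rfl | hb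
        · exact absurd rfl hab
        · rintro ⟨s, h2, h3⟩
          exact hcon b hb s h2 h3
      · rcases hb with rfl | hb
        · rintro ⟨s, h2, h3⟩
          exact hcon a ha s h3 h2
        · exact hAp ha hb hab
    have h2 : d ∈ A := hA.le_of_ge h1 (Set.subset_insert d A) (Set.mem_insert d A)
    exact hcon d h2 d le_rfl le_rfl
  have hcount : (insert none (some '' A) : Set (Option P)).Countable :=
    (hAc.image some).insert none
  obtain ⟨g, hg⟩ := hcount.exists_eq_range ⟨none, Set.mem_insert _ _⟩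
  refine ⟨g, ?_⟩
  have hgA : {c : P | ∃ n, g n = some c} = A := by
    ext c
    constructor
    · rintro ⟨n, hn⟩
      have h1 : some c ∈ (insert none (some '' A) : Set (Option P)) := by
        rw [hg]
        exact ⟨n, hn⟩
      rcases h1 with h1 | ⟨a, ha, h1⟩
      · exact absurd h1 (by simp)
      · rw [← Option.some_injective P h1]
        exact ha
    · intro hc
      have h1 : some c ∈ (insert none (some '' A) : Set (Option P)) :=
        Or.inr ⟨c, hc, rfl⟩
      rw [hg] at h1
      exact h1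
  rw [hgA]
  ext p
  constructor
  · intro hp q hq
    obtain ⟨r, hr, a, ha, hra⟩ := hp q hq
    obtain ⟨c, hc, hac⟩ := hAD ha
    exact ⟨r, hr, c, hc, hra.trans hac⟩
  · intro hp q hq
    obtain ⟨r, hr, c, hc, hrc⟩ := hp q hq
    obtain ⟨a, ha, t, htr, hta⟩ := hmax r ⟨c, hc, hrc⟩
    exact ⟨t, htr.trans hr, a, ha, hta⟩

theorem siz : S_SIZ := by
  intro P _ X Y hC hcard p q hq hcon
  classical
  obtain ⟨s, hs, C, hCs⟩ := (mem_fex.1 hcon) q le_rfl
  choose g hg using fun (r : X) (y : Y) => siz_nice hC (C r y)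
  have hninj : ¬ Function.Injective g := by
    intro hinj
    have h1 : #X ≤ #(Y → ℕ → Option P) := Cardinal.mk_le_of_injective hinj
    have h2 : #(Y → ℕ → Option P) = ((#P + 1) ^ ℵ₀) ^ #Y := by
      rw [← Cardinal.power_def, ← Cardinal.power_def, Cardinal.mk_option, Cardinal.mk_nat]
    have h3 : ((#P + 1) ^ ℵ₀) ^ #Y ≤ ((#P + 2) ^ ℵ₀) ^ #Y := by
      refine Cardinal.power_le_power_right (Cardinal.power_le_power_right ?_)
      exact add_le_add le_rfl (by norm_num)
    rw [h2] at h1
    exact absurd (h1.trans h3) (not_le.2 hcard)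
  simp only [Function.Injective, not_forall] at hninj
  obtain ⟨r, r', hrr, hne⟩ := hninj
  have hm : ∀ y, meets (C r y) = meets (C r' y) := by
    intro y
    rw [← hg r y, ← hg r' y, hrr]
  have key : ∀ a b : X, (∀ y, meets (C a y) = meets (C b y)) → s ∈ Subs (C a) (C b) := by
    intro a b hab y
    show s ∈ fimp (meets (C a y)) (meets (C b y))
    rw [hab y]
    exact mem_fimp.2 fun t _ ht => ⟨t, le_rfl, ht⟩
  exact hCs r r' hne s le_rfl ⟨key r r' hm, key r' r fun y => (hm y).symm⟩

end Pool.Agent.Helper87.IA
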