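import Pool.Agent.Helper87.IA.Base

/-!
# Uncountable sets stay uncountable (helper71)
-/

set_option autoImplicit false

namespace Pool.Agent.Helper87.IA

open Cardinal Set

theorem unc : S_UNC := by
  intro P _ Y hC hY p q hq hcon
  obtain ⟨r, hr, R, hR⟩ := (mem_fex.1 hcon) q le_rfl
  obtain ⟨h1, h2⟩ := hR
  have h3 : ∀ x : Y, ∃ (n : ℕ) (t : P), t ≤ r ∧ t ∈ meets (R n x) := by
    intro x
    obtain ⟨t, ht, ht'⟩ := (mem_fimp.1 (h2 x)) r le_rfl (meets_of_mem (Set.mem_univ r))
    obtain ⟨t', ht1, n, ht2⟩ := (mem_fex.1 ht') t le_rfl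
    exact ⟨n, t', ht1.trans ht, ht2⟩
  choose n t ht htR using h3
  obtain ⟨k, hk⟩ : ∃ k, Uncountable {x : Y // n x = k} := by
    by_contra hcon2
    simp only [not_exists, not_uncountable_iff] at hcon2
    have h4 : Countable Y := by
      have h5 : Countable (Σ k, {x : Y // n x = k}) := inferInstance
      exact Function.Injective.countable (f := fun x : Y => (⟨n x, ⟨x, rfl⟩⟩ : Σ k, {x : Y // n x = k}))
        (fun x y h => by
          have h6 := congrArg (fun z : Σ k, {x : Y // n x = k} => (z.2 : Y)) h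
          exact h6)
    exact not_countable_iff.2 hY h4
  obtain ⟨x, y, hxy, s, hsx, hsy⟩ := hC {x : Y // n x = k} (fun x => t x) hk
  have h5 : (x : Y) ≠ (y : Y) := fun h => hxy (Subtype.ext h)
  refine h1 k (x : Y) (y : Y) h5 s (hsx.trans (ht x)) ⟨?_, ?_⟩
  · have := htR (x : Y)
    rw [x.2] at this
    exact meets_down this hsx
  · have := htR (y : Y)
    rw [y.2] at this
    exact meets_down this hsy

end Pool.Agent.Helper87.IA
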