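import Pool.Agent.Helper87.IA.AMA
import Pool.Agent.Helper87.IA.ANT
import Pool.Agent.Helper87.IA.ARI
import Pool.Agent.Helper87.IA.CHN
import Pool.Agent.Helper87.IA.DEL
import Pool.Agent.Helper87.IA.EXT
import Pool.Agent.Helper87.IA.GEN
import Pool.Agent.Helper87.IA.GLU
import Pool.Agent.Helper87.IA.GRD
import Pool.Agent.Helper87.IA.KEY
import Pool.Agent.Helper87.IA.RAM
import Pool.Agent.Helper87.IA.SIZ
import Pool.Agent.Helper87.IA.UNC

/-!
# The assembly
-/

set_option autoImplicit false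
set_option linter.unusedSectionVars false

namespace Pool.Agent.Helper87.IA

open Cardinal Set

theorem key' : S_KEY := key (del ram) (ama ram) glu

/-- the forcing notion `Co Λ` forces the sentence `Model` -/
theorem co_model (Λ : Type) [LinearOrder Λ] [WellFoundedLT Λ] [NoMaxOrder Λ] [Uncountable Λ]
    (h : ((#(Co Λ) + 2) ^ ℵ₀) ^ (ℵ₁ : Cardinal.{0}) < #(Λ → Bool)) (p : Co Λ) :
    p ∈ Model (Co Λ) := by
  have hne : Nonempty Λ := inferInstance
  have hc : CCC (Co Λ) := chn key' ext Λ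
  have hg : ∀ q : Co Λ, _ := fun q => gen ext Λ q
  refine mem_fex_of (Nd Λ) fun q1 _ => mem_fex_of gle fun q2 _ =>
    ⟨(hg q2).1, ant key' ext Λ q2, ?_⟩
  refine mem_fex_of (Λ → Bool) fun q3 _ => mem_fex_of gJ fun q4 _ =>
    ⟨fun r => (hg q4).2.1 r, fun r r' hne => (hg q4).2.2 r r' hne, ?_⟩
  refine mem_fex_of (ℵ₁ : Cardinal.{0}).out fun q5 _ => ⟨?_, ?_⟩
  · refine unc (Co Λ) _ hc ?_ q5
    rw [← not_countable_iff, ← mk_le_aleph0_iff, mk_out, not_le]
    exact aleph0_lt_aleph_one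
  · refine siz (Co Λ) _ _ hc ?_ q5
    rw [mk_out]
    exact h

theorem main : (∃ (P : Type) (_ : Preorder P), Nonempty P ∧ CCC P ∧ ∀ p : P, p ∈ Model P) ∧
    S_GRD := by
  refine ⟨?_, grd⟩
  obtain ⟨Λ, i1, i2, i3, i4, h⟩ := ari
  refine ⟨Co Λ, inferInstance, ?_, chn key' ext Λ, fun p => co_model Λ h p⟩
  exact ⟨⟨∅, fun _ _ => False, fun _ _ h => h.elim, fun _ h => absurd h (Finset.notMem_empty _),
    fun _ _ _ h => h.elim, fun _ _ h => h.elim, fun _ _ h => h.elim, fun _ _ h => h.elim,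
    fun _ _ _ _ h => h.elim⟩⟩

end Pool.Agent.Helper87.IA
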